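import Pool.Agent.Zk42.UC.Count

/-! From the field with the roots of unity down to an arbitrary number field. -/

set_option autoImplicit false

namespace Pool.Agent.Zk42.UC

open IsDedekindDomain NumberField Polynomial Finset
open scoped WithZero

lemma eq_of_pow_eq {Γ : Type*} [LinearOrderedCommGroupWithZero Γ] {x y : Γ} {k : ℕ} (hk : k ≠ 0)
    (h : x ^ k = y ^ k) : x = y := by
  rcases lt_trichotomy x y with h1 | h1 | h1
  · exact absurd h (pow_lt_pow_left₀ h1 zero_le hk).ne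
  · exact h1
  · exact absurd h (pow_lt_pow_left₀ h1 zero_le hk).ne'

lemma val_nat_le {F : Type} [Field F] [NumberField F] (v : HeightOneSpectrum (𝓞 F)) (m : ℕ) :
    v.valuation F ((m : ℕ) : F) ≤ 1 := by
  rw [← map_natCast (algebraMap (𝓞 F) F) m]
  exact v.valuation_le_one (K := F) _

lemma val_nat_lt {F : Type} [Field F] [NumberField F] (v : HeightOneSpectrum (𝓞 F)) {m : ℕ}
    (h : ((m : ℕ) : 𝓞 F) ∈ v.asIdeal) : v.valuation F ((m : ℕ) : F) < 1 := by
  rw [← map_natCast (algebraMap (𝓞 F) F) m]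
  exact (v.valuation_lt_one_iff_mem (K := F) _).2 h

lemma finite_bad (L : Type) [Field L] [NumberField L] (x : 𝓞 L) (hx : x ≠ 0) :
    {v : HeightOneSpectrum (𝓞 L) | v.valuation L (algebraMap (𝓞 L) L x) ≠ 1}.Finite := by
  have hI : Ideal.span {x} ≠ ⊥ := by
    rw [Ne, Ideal.span_singleton_eq_bot]
    exact hx
  refine (Ideal.finite_factors hI).subset (fun v hv => ?_)
  rw [Set.mem_ofPred_eq, Ne, HeightOneSpectrum.valuation_eq_one_iff_notMem, not_not] at hv
  exact Ideal.dvd_span_singleton.2 hv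

/-- the condition at the primes outside `S` -/
def CondK {K : Type} [Field K] [NumberField K] (S : Set (HeightOneSpectrum (𝓞 K))) (a b : K)
    (d n : ℕ) : Prop :=
  ∀ v : HeightOneSpectrum (𝓞 K), v ∉ S → 1 < v.valuation K a * v.valuation K b ^ (d - 1) →
    ∀ r : ℤᵐ⁰, v.valuation K a * r ^ d = v.valuation K b →
      ∃ h : ℤᵐ⁰, v.valuation K a * r ^ (d - 1) = h ^ n

/-- the places above -/
lemma place_above {K L : Type} [Field K] [NumberField K] [Field L] [NumberField L] [Algebra K L]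
    (w : HeightOneSpectrum (𝓞 L)) : ∃ (v : HeightOneSpectrum (𝓞 K)) (e : ℕ), e ≠ 0 ∧
      ∀ x : K, w.valuation L (algebraMap K L x) = v.valuation K x ^ e := by
  have hl : w.asIdeal.LiesOver (HeightOneSpectrum.under (𝓞 K) w).asIdeal := ⟨rfl⟩
  refine ⟨HeightOneSpectrum.under (𝓞 K) w,
    (HeightOneSpectrum.under (𝓞 K) w).asIdeal.ramificationIdx' w.asIdeal, ?_, fun x =>
      (HeightOneSpectrum.valuation_liesOver L _ w x).symm⟩
  exact Ideal.IsDedekindDomain.ramificationIdx'_ne_zero_of_liesOver w.asIdeal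
    (HeightOneSpectrum.under (𝓞 K) w).ne_bot

/-- the places outside a finite set, from `K` to `L` -/
lemma places (K L : Type) [Field K] [NumberField K] [Field L] [NumberField L] [Algebra K L]
    (S : Set (HeightOneSpectrum (𝓞 K))) (hS : S.Finite) (d : ℕ) (hd : d ≠ 0) :
    ∃ SL : Set (HeightOneSpectrum (𝓞 L)), SL.Finite ∧ ∀ w ∉ SL,
      w.valuation L ((d : ℕ) : L) = 1 ∧ ∃ (v : HeightOneSpectrum (𝓞 K)) (e : ℕ), e ≠ 0 ∧ v ∉ S ∧
        v.valuation K ((d : ℕ) : K) = 1 ∧
        ∀ x : K, w.valuation L (algebraMap K L x) = v.valuation K x ^ e := by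
  classical
  -- a number in all the primes of `S`
  obtain ⟨N, hN0, hN⟩ : ∃ N : ℕ, N ≠ 0 ∧ ∀ v ∈ S, ((N : ℕ) : 𝓞 K) ∈ v.asIdeal := by
    refine ⟨∏ v ∈ hS.toFinset, Ideal.absNorm v.asIdeal, ?_, ?_⟩
    · rw [Finset.prod_ne_zero_iff]
      intro v _
      rw [Ne, Ideal.absNorm_eq_zero_iff]
      exact v.ne_bot
    · intro v hv
      have h1 : v ∈ hS.toFinset := hS.mem_toFinset.2 hv
      rw [← mul_prod_erase _ _ h1, Nat.cast_mul]
      exact Ideal.mul_mem_right _ _ (Ideal.absNorm_mem _)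
  refine ⟨{w | w.valuation L (algebraMap (𝓞 L) L ((N * d : ℕ) : 𝓞 L)) ≠ 1},
    finite_bad L _ (by
      have : N * d ≠ 0 := Nat.mul_ne_zero hN0 hd
      exact_mod_cast this), ?_⟩
  intro w hw
  rw [Set.mem_ofPred_eq, not_not] at hw
  rw [map_natCast, Nat.cast_mul, map_mul] at hw
  have h1 : w.valuation L ((N : ℕ) : L) ≤ 1 := val_nat_le w N
  have h2 : w.valuation L ((d : ℕ) : L) ≤ 1 := val_nat_le w d
  have h3 : w.valuation L ((N : ℕ) : L) = 1 := by
    refine le_antisymm h1 ?_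
    rw [← hw]
    calc _ ≤ w.valuation L ((N : ℕ) : L) * 1 := by gcongr
      _ = _ := mul_one _
  have h4 : w.valuation L ((d : ℕ) : L) = 1 := by
    refine le_antisymm h2 ?_
    rw [← hw]
    calc _ ≤ 1 * w.valuation L ((d : ℕ) : L) := by gcongr
      _ = _ := one_mul _
  obtain ⟨v, e, he, hval⟩ := place_above (K := K) w
  refine ⟨h4, v, e, he, ?_, ?_, hval⟩
  · intro hvS
    have h5 := val_nat_lt v (hN v hvS)
    have h6 := hval ((N : ℕ) : K)
    rw [map_natCast, h3] at h6
    have h7 : v.valuation K ((N : ℕ) : K) ^ e < 1 := pow_lt_one₀ zero_le h5 he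
    exact absurd h6 h7.ne'
  · have h6 := hval ((d : ℕ) : K)
    rw [map_natCast, h4] at h6
    by_contra hne
    have h7 : v.valuation K ((d : ℕ) : K) ^ e < 1 :=
      pow_lt_one₀ zero_le (lt_of_le_of_ne (val_nat_le v d) hne) he
    exact absurd h6 h7.ne'

/-- the condition goes up as soon as there is a preperiodic point -/
lemma cond_up {K L : Type} [Field K] [NumberField K] [Field L] [NumberField L] [Algebra K L]
    {S : Set (HeightOneSpectrum (𝓞 K))} {SL : Set (HeightOneSpectrum (𝓞 L))} {n d : ℕ}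
    (hd : 2 ≤ d)
    (h : ∀ w ∉ SL, w.valuation L ((d : ℕ) : L) = 1 ∧
      ∃ (v : HeightOneSpectrum (𝓞 K)) (e : ℕ), e ≠ 0 ∧ v ∉ S ∧
        v.valuation K ((d : ℕ) : K) = 1 ∧
        ∀ x : K, w.valuation L (algebraMap K L x) = v.valuation K x ^ e)
    {a b : K} (hC : CondK S a b d n) {x0 : K} (hx0 : PP (fu a b d) x0) :
    Cond SL (algebraMap K L a) (algebraMap K L b) d n := by
  intro w hw h1 g hg
  obtain ⟨-, v, e, he0, hvS, -, hval⟩ := h w hw
  have h2 : w.valuation L (algebraMap K L a) * w.valuation L (algebraMap K L b) ^ (d - 1) =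
      (v.valuation K a * v.valuation K b ^ (d - 1)) ^ e := by
    rw [hval, hval, mul_pow, ← pow_mul, ← pow_mul, Nat.mul_comm e]
  have h3 : 1 < v.valuation K a * v.valuation K b ^ (d - 1) := by
    by_contra hc
    push Not at hc
    rw [h2] at h1
    exact absurd h1 (not_lt.2 (pow_le_one₀ zero_le hc))
  obtain ⟨q1, q2, q3⟩ := bad_q (v.valuation K) hd h3 hx0
  have q4 := bad_bound (v.valuation K) hd h3 hx0
  obtain ⟨h, hh⟩ := hC v hvS h3 _ q4
  refine ⟨h ^ e, ?_⟩
  apply eq_of_pow_eq (k := d) (by omega)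
  rw [← hg, h2, ← q2, hh]
  rw [← pow_mul, ← pow_mul, ← pow_mul, ← pow_mul]
  congr 1
  ring

section semi

variable {K L : Type} [Field K] [Field L] [Algebra K L] {a b : K} {d : ℕ}

lemma semi (k : ℕ) (x : K) : algebraMap K L ((fu a b d)^[k] x) =
    (fu (algebraMap K L a) (algebraMap K L b) d)^[k] (algebraMap K L x) := by
  induction k generalizing x with
  | zero => rfl
  | succ k ih =>
    rw [Function.iterate_succ_apply, Function.iterate_succ_apply, ih]
    congr 1
    unfold fu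
    rw [map_add, map_mul, map_pow]

lemma PP.up {x : K} (h : PP (fu a b d) x) :
    PP (fu (algebraMap K L a) (algebraMap K L b) d) (algebraMap K L x) := by
  obtain ⟨i, j, hij, he⟩ := h
  exact ⟨i, j, hij, by rw [← semi, ← semi, he]⟩

lemma Per.up {x : K} (h : Per (fu a b d) x) :
    Per (fu (algebraMap K L a) (algebraMap K L b) d) (algebraMap K L x) := by
  obtain ⟨n, hn, he⟩ := h
  exact ⟨n, hn, by rw [← semi, he]⟩

end semi

/-- uniform bound over an arbitrary number field, and the finite set of ratios -/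
theorem main_K {n d : ℕ} (hsel : SelN n) (hd : 2 ≤ d)
    (hfin : ∀ (L : Type) [Field L] [NumberField L] (μ : L), IsPrimitiveRoot μ d → ∀ T : Finset L,
      (∀ t ∈ T, t ≠ 0) → (Rset L d n T).Finite)
    (K : Type) [Field K] [NumberField K] (S : Set (HeightOneSpectrum (𝓞 K))) (hS : S.Finite) :
    ∃ (B : ℕ) (R : Finset K), (∀ ρ ∈ R, ρ ^ d ≠ 1) ∧ ∀ a b : K, a ≠ 0 → CondK S a b d n →
      (∀ X : Finset K, (∀ x ∈ X, PP (fu a b d) x) → X.card ≤ B) ∧
      (∀ x y : K, Per (fu a b d) x → Per (fu a b d) y → x ≠ y → y ≠ 0 → x / y ∈ R) ∧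
      (∀ (x z ζ : K) (k : ℕ), PP (fu a b d) x → fu a b d z = z → ζ ^ d = 1 → ζ ≠ 1 → 1 ≤ k →
        (fu a b d)^[k] x = ζ * z → z ≠ 0 → x / z ∈ R) := by
  classical
  have hne : NeZero d := ⟨by omega⟩
  let L := CyclotomicField d K
  have hμ : IsPrimitiveRoot (IsCyclotomicExtension.zeta d K L) d :=
    IsCyclotomicExtension.zeta_spec d K L
  obtain ⟨SL, hSLfin, hout⟩ := places K L S hS d (by omega)
  obtain ⟨T, hT0, hT⟩ := hsel L SL hSLfin
  have hinj : Function.Injective (algebraMap K L) := (algebraMap K L).injective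
  have hdS : ∀ w ∉ SL, w.valuation L ((d : ℕ) : L) = 1 := fun w hw => (hout w hw).1
  obtain ⟨B, hB⟩ := main_L (n := n) SL hdS (T := T) hT hμ hd (hfin L _ hμ T hT0)
  have hRfin : ((algebraMap K L) ⁻¹' (Rset L d n T)).Finite :=
    (hfin L _ hμ T hT0).preimage hinj.injOn
  refine ⟨B, hRfin.toFinset, ?_, ?_⟩
  · intro ρ hρ h1
    rw [Set.Finite.mem_toFinset] at hρ
    apply hρ.1
    rw [← map_pow, h1, map_one]
  intro a b ha hC
  refine ⟨?_, ?_, ?_⟩
  · intro X hX
    rcases X.eq_empty_or_nonempty with rfl | ⟨x0, hx0⟩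
    · simp
    have hmap := hB (algebraMap K L a) (algebraMap K L b)
      (fun h => ha ((map_eq_zero (algebraMap K L)).1 h)) (cond_up hd hout hC (hX x0 hx0))
      (X.map ⟨algebraMap K L, hinj⟩) (by
        intro y hy
        rw [mem_map] at hy
        obtain ⟨x, hx, rfl⟩ := hy
        exact (hX x hx).up)
    rwa [card_map] at hmap
  · intro x y hx hy hne' hy0
    rw [Set.Finite.mem_toFinset, Set.mem_preimage, map_div₀]
    exact per_ratio hdS hT hμ hd (cond_up hd hout hC hx.pp) hx.up hy.up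
      (fun h => hne' (hinj h)) (fun h => hy0 ((map_eq_zero (algebraMap K L)).1 h))
  · intro x z ζ k hx hz hζ hζ1 hk h1 hz0
    rw [Set.Finite.mem_toFinset, Set.mem_preimage, map_div₀]
    refine tail_one_ratio (ζ := algebraMap K L ζ) hdS hT hμ hd (cond_up hd hout hC hx) hx.up ?_ ?_
      ?_ hk ?_ (fun h => hz0 ((map_eq_zero (algebraMap K L)).1 h))
    · have := semi (L := L) (a := a) (b := b) (d := d) 1 z
      exact this.symm.trans (congrArg _ hz)
    · rw [← map_pow, hζ, map_one]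
    · intro h
      apply hζ1
      apply hinj
      rw [h, map_one]
    · rw [← semi, h1, map_mul]

end Pool.Agent.Zk42.UC
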