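import Mathlib

/-! Local analysis of the preperiodic points of `a x ^ d + b`. -/

set_option autoImplicit false

namespace Pool.Agent.Zk42.UC

open Finset Polynomial

/-- the unicritical polynomial `a x ^ d + b` -/
def fu {L : Type*} [Field L] (a b : L) (d : ℕ) (x : L) : L := a * x ^ d + b

/-- `x` is preperiodic for `f` -/
def PP {α : Type*} (f : α → α) (x : α) : Prop := ∃ m n : ℕ, m < n ∧ f^[m] x = f^[n] x

/-- `x` is periodic for `f` -/
def Per {α : Type*} (f : α → α) (x : α) : Prop := ∃ n : ℕ, 0 < n ∧ f^[n] x = x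

section dyn

variable {α : Type*} {f : α → α} {x y : α}

lemma not_pp_of_incr {Γ : Type*} [LinearOrder Γ] (f : α → α) (h : α → Γ) (P : α → Prop)
    (hP : ∀ x, P x → P (f x) ∧ h x < h (f x)) {x : α} (hx : P x) : ¬ PP f x := by
  have h1 : ∀ k, P (f^[k] x) := by
    intro k
    induction k with
    | zero => exact hx
    | succ k ih => rw [Function.iterate_succ_apply']; exact (hP _ ih).1
  have h2 : StrictMono (fun k => h (f^[k] x)) := by
    apply strictMono_nat_of_lt_succ
    intro k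
    show h (f^[k] x) < h (f^[k + 1] x)
    rw [Function.iterate_succ_apply']
    exact (hP _ (h1 k)).2
  rintro ⟨m, n, hmn, he⟩
  have h3 : h (f^[m] x) < h (f^[n] x) := h2 hmn
  rw [he] at h3
  exact lt_irrefl _ h3

lemma PP.map (h : PP f x) : PP f (f x) := by
  obtain ⟨m, n, hmn, he⟩ := h
  refine ⟨m, n, hmn, ?_⟩
  rw [← Function.iterate_succ_apply, ← Function.iterate_succ_apply, Function.iterate_succ_apply',
    Function.iterate_succ_apply', he]

lemma PP.iter (h : PP f x) (k : ℕ) : PP f (f^[k] x) := by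
  induction k with
  | zero => exact h
  | succ k ih => rw [Function.iterate_succ_apply']; exact ih.map

lemma Per.pp (h : Per f x) : PP f x := by
  obtain ⟨n, hn, he⟩ := h
  exact ⟨0, n, hn, he.symm⟩

lemma PP.exists_per (h : PP f x) : ∃ k, Per f (f^[k] x) := by
  obtain ⟨m, n, hmn, he⟩ := h
  refine ⟨m, n - m, by omega, ?_⟩
  rw [← Function.iterate_add_apply, Nat.sub_add_cancel hmn.le, he]

lemma Per.iter (h : Per f x) (k : ℕ) : Per f (f^[k] x) := by
  obtain ⟨n, hn, he⟩ := h
  refine ⟨n, hn, ?_⟩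
  rw [← Function.iterate_add_apply, Nat.add_comm, Function.iterate_add_apply, he]

lemma Per.map (h : Per f x) : Per f (f x) := h.iter 1

lemma iter_mul {n : ℕ} (h : f^[n] x = x) (k : ℕ) : f^[n * k] x = x := by
  induction k with
  | zero => rfl
  | succ k ih => rw [Nat.mul_succ, Function.iterate_add_apply, h, ih]

lemma common_period (hu : Per f x) (hw : Per f y) :
    ∃ n : ℕ, 0 < n ∧ f^[n] x = x ∧ f^[n] y = y := by
  obtain ⟨m, hm, h1⟩ := hu
  obtain ⟨n, hn, h2⟩ := hw
  exact ⟨m * n, Nat.mul_pos hm hn, iter_mul h1 n, by rw [Nat.mul_comm]; exact iter_mul h2 m⟩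

lemma per_inj (hu : Per f x) (hw : Per f y) {k : ℕ} (h : f^[k] x = f^[k] y) : x = y := by
  obtain ⟨n, hn, h1, h2⟩ := common_period hu hw
  have h3 : f^[n * (k + 1) - k] (f^[k] x) = f^[n * (k + 1) - k] (f^[k] y) := by rw [h]
  have hle : k ≤ n * (k + 1) := by nlinarith
  rw [← Function.iterate_add_apply, ← Function.iterate_add_apply, Nat.sub_add_cancel hle,
    iter_mul h1, iter_mul h2] at h3
  exact h3

/-- two preperiodic points repeat simultaneously -/
lemma common_pp (hx : PP f x) (hy : PP f y) :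
    ∃ m n : ℕ, m < n ∧ f^[m] x = f^[n] x ∧ f^[m] y = f^[n] y := by
  obtain ⟨k, hk⟩ := hx.exists_per
  obtain ⟨l, hl⟩ := hy.exists_per
  have h1 := hk.iter l
  have h2 := hl.iter k
  rw [← Function.iterate_add_apply] at h1 h2
  rw [Nat.add_comm k l] at h2
  obtain ⟨n, hn, e1, e2⟩ := common_period h1 h2
  refine ⟨l + k, n + (l + k), by omega, ?_, ?_⟩
  · rw [Function.iterate_add_apply (m := n), e1]
  · rw [Function.iterate_add_apply (m := n), e2]

/-- never merging -/
def NM (f : α → α) (x y : α) : Prop := ∀ k : ℕ, f^[k] x ≠ f^[k] y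

lemma NM.map (h : NM f x y) : NM f (f x) (f y) := by
  intro k
  have := h (k + 1)
  rwa [Function.iterate_succ_apply, Function.iterate_succ_apply] at this

lemma NM.iter (h : NM f x y) (k : ℕ) : NM f (f^[k] x) (f^[k] y) := by
  intro j
  rw [← Function.iterate_add_apply, ← Function.iterate_add_apply]
  exact h _

lemma per_NM (hx : Per f x) (hy : Per f y) (hne : x ≠ y) : NM f x y :=
  fun _ h => hne (per_inj hx hy h)

end dyn

section field

variable {L : Type*} [Field L] {a b : L} {d : ℕ} {μ : L}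

/-- the factorisation of differences -/
lemma fu_sub (hμ : IsPrimitiveRoot μ d) (hd : 0 < d) (x y : L) :
    fu a b d x - fu a b d y = a * ∏ ζ ∈ nthRootsFinset d (1 : L), (x - ζ * y) := by
  rw [← hμ.pow_sub_pow_eq_prod_sub_mul x y hd]
  unfold fu
  ring

lemma fu_zeta {ζ : L} (hζ : ζ ^ d = 1) (x : L) : fu a b d (ζ * x) = fu a b d x := by
  unfold fu
  rw [mul_pow, hζ, one_mul]

end field

section val

variable {L : Type*} [Field L] {Γ : Type*} [LinearOrderedCommGroupWithZero Γ] (v : Valuation L Γ)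
  {a b : L} {d : ℕ} {μ : L}

/-- potentially good places -/
lemma good_bound (hd : 2 ≤ d) (ht : v a * v b ^ (d - 1) ≤ 1) {x : L} (hx : PP (fu a b d) x) :
    v a * v x ^ (d - 1) ≤ 1 := by
  by_contra hc
  push Not at hc
  refine not_pp_of_incr (fu a b d) v (fun y => 1 < v a * v y ^ (d - 1)) ?_ hc hx
  intro y hy
  have hb : v b < v y := by
    by_contra hb
    push Not at hb
    have h1 : v a * v y ^ (d - 1) ≤ v a * v b ^ (d - 1) := by gcongr
    exact absurd (hy.trans_le h1) (not_lt.2 ht)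
  have h1 : v y < v (a * y ^ d) := by
    have e : v (a * y ^ d) = (v a * v y ^ (d - 1)) * v y := by
      rw [map_mul, map_pow, mul_assoc, ← pow_succ, Nat.sub_add_cancel (by omega)]
    rw [e]
    calc v y = 1 * v y := (one_mul _).symm
      _ < _ := mul_lt_mul_of_pos_right hy (lt_of_le_of_lt zero_le hb)
  have h2 : v (fu a b d y) = v (a * y ^ d) := by
    unfold fu
    exact Valuation.map_add_eq_of_lt_left v (hb.trans h1)
  refine ⟨?_, by rw [h2]; exact h1⟩
  show 1 < v a * v (fu a b d y) ^ (d - 1)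
  rw [h2]
  refine hy.trans_le ?_
  have h3 := h1.le
  gcongr

/-- bad places: all preperiodic points have the same size -/
lemma bad_bound (hd : 2 ≤ d) (ht : 1 < v a * v b ^ (d - 1)) {x : L} (hx : PP (fu a b d) x) :
    v a * v x ^ d = v b := by
  have hb0 : v b ≠ 0 := by
    intro h0
    rw [h0, zero_pow (by omega), mul_zero] at ht
    exact absurd ht (not_lt.2 zero_le)
  have key : ∀ y : L, v b < v a * v y ^ d → ¬ PP (fu a b d) y := by
    intro y hy
    refine not_pp_of_incr (fu a b d) v (fun y => v b < v a * v y ^ d) ?_ hy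
    intro y hy
    have h2 : v (fu a b d y) = v a * v y ^ d := by
      unfold fu
      rw [Valuation.map_add_eq_of_lt_left v (by rw [map_mul, map_pow]; exact hy), map_mul, map_pow]
    have e : v a * v y ^ d = (v a * v y ^ (d - 1)) * v y := by
      rw [mul_assoc, ← pow_succ, Nat.sub_add_cancel (by omega)]
    have h3 : 1 < v a * v y ^ (d - 1) := by
      by_contra h3
      push Not at h3
      have h4 : v b < v y := by
        refine hy.trans_le ?_
        rw [e]
        calc _ ≤ 1 * v y := by gcongr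
          _ = _ := one_mul _
      have h5 : v a * v b ^ (d - 1) ≤ v a * v y ^ (d - 1) := by
        have := h4.le
        gcongr
      exact absurd (ht.trans_le h5) (not_lt.2 h3)
    have hy0 : 0 < v y := by
      rw [zero_lt_iff]
      intro h0
      rw [h0, zero_pow (by omega), mul_zero] at hy
      exact absurd hy (not_lt.2 zero_le)
    have h4 : v y < v a * v y ^ d := by
      rw [e]
      calc v y = 1 * v y := (one_mul _).symm
        _ < _ := mul_lt_mul_of_pos_right h3 hy0
    rw [h2]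
    refine ⟨?_, h4⟩
    have h5 := h4.le
    calc v b < v a * v y ^ d := hy
      _ ≤ v a * (v a * v y ^ d) ^ d := by gcongr
  rcases lt_trichotomy (v a * v x ^ d) (v b) with h | h | h
  · exfalso
    have h2 : v (fu a b d x) = v b := by
      unfold fu
      exact Valuation.map_add_eq_of_lt_right v (by rw [map_mul, map_pow]; exact h)
    refine key (fu a b d x) ?_ hx.map
    rw [h2]
    have e : v a * v b ^ d = (v a * v b ^ (d - 1)) * v b := by
      rw [mul_assoc, ← pow_succ, Nat.sub_add_cancel (by omega)]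
    rw [e]
    calc v b = 1 * v b := (one_mul _).symm
      _ < _ := mul_lt_mul_of_pos_right ht (zero_lt_iff.2 hb0)
  · exact h
  · exact absurd hx (key x h)

lemma v_zeta {ζ : L} (hd : d ≠ 0) (hζ : ζ ^ d = 1) : v ζ = 1 := by
  have h := congrArg v hζ
  rw [map_pow, map_one] at h
  exact (pow_eq_one_iff.1 h).resolve_right hd

lemma v_sub_le {ζ : L} (hd : d ≠ 0) (hζ : ζ ^ d = 1) (x y : L) :
    v (x - ζ * y) ≤ max (v x) (v y) := by
  refine (Valuation.map_sub v _ _).trans ?_
  rw [map_mul, v_zeta v hd hζ, one_mul]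

lemma v_zeta_one (hd : 0 < d) (hvd : v (d : L) = 1) {ξ : L} (hξ : ξ ^ d = 1) (hne : ξ ≠ 1) :
    v (ξ - 1) = 1 := by
  have h1 : v ξ = 1 := v_zeta v hd.ne' hξ
  have hle : v (ξ - 1) ≤ 1 := by
    refine (Valuation.map_sub v _ _).trans ?_
    rw [h1, map_one, max_self]
  refine le_antisymm hle ?_
  by_contra hlt
  push Not at hlt
  have hg : ∀ i : ℕ, v (ξ ^ i - 1) ≤ v (ξ - 1) := by
    intro i
    rw [← mul_geom_sum, map_mul]
    have h2 : v (∑ j ∈ range i, ξ ^ j) ≤ 1 := by
      apply Valuation.map_sum_le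
      intro j _
      rw [map_pow, h1, one_pow]
    calc v (ξ - 1) * v (∑ j ∈ range i, ξ ^ j) ≤ v (ξ - 1) * 1 := by gcongr
      _ = _ := mul_one _
  have h0 : ∑ i ∈ range d, ξ ^ i = 0 := by
    have h2 := mul_geom_sum ξ d
    rw [hξ, sub_self] at h2
    exact (mul_eq_zero.1 h2).resolve_left (sub_ne_zero.2 hne)
  have h3 : ∑ i ∈ range d, (ξ ^ i - 1) = -(d : L) := by
    rw [sum_sub_distrib, h0, sum_const, card_range, nsmul_eq_mul, mul_one, zero_sub]
  have h4 : v (∑ i ∈ range d, (ξ ^ i - 1)) ≤ v (ξ - 1) := Valuation.map_sum_le v fun i _ => hg i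
  rw [h3, Valuation.map_neg, hvd] at h4
  exact absurd h4 (not_le.2 hlt)

/-- differences of roots of unity are units -/
lemma v_zeta_sub (hd : 0 < d) (hvd : v (d : L) = 1) {ζ ζ' : L}
    (hζ : ζ ^ d = 1) (hζ' : ζ' ^ d = 1) (hne : ζ ≠ ζ') : v (ζ - ζ') = 1 := by
  have h0 : ζ' ≠ 0 := by
    rintro rfl
    rw [zero_pow hd.ne'] at hζ'
    exact zero_ne_one hζ'
  have h1 : (ζ / ζ') ^ d = 1 := by rw [div_pow, hζ, hζ', div_one]
  have h2 : ζ / ζ' ≠ 1 := by
    intro h
    exact hne ((div_eq_one_iff_eq h0).1 h)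
  have h3 : ζ - ζ' = ζ' * (ζ / ζ' - 1) := by field_simp
  rw [h3, map_mul, v_zeta v hd.ne' hζ', v_zeta_one v hd hvd h1 h2, one_mul]

/-- product of the valuations of the factors -/
lemma v_fu_sub (hμ : IsPrimitiveRoot μ d) (hd : 0 < d) (x y : L) :
    v (fu a b d x - fu a b d y) = v a * ∏ ζ ∈ nthRootsFinset d (1 : L), v (x - ζ * y) := by
  rw [fu_sub hμ hd, map_mul, map_prod]

lemma mem_roots {ζ : L} (hd : 0 < d) : ζ ∈ nthRootsFinset d (1 : L) ↔ ζ ^ d = 1 :=
  mem_nthRootsFinset hd 1

variable [DecidableEq L]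

/-- the product without one factor -/
lemma prod_erase_le (hμ : IsPrimitiveRoot μ d) (hd : 0 < d) {ζ : L} (hζ : ζ ^ d = 1) (x y : L) :
    ∏ ζ' ∈ (nthRootsFinset d (1 : L)).erase ζ, v (x - ζ' * y) ≤ max (v x) (v y) ^ (d - 1) := by
  classical
  have hc : ((nthRootsFinset d (1 : L)).erase ζ).card = d - 1 := by
    rw [card_erase_of_mem ((mem_roots hd).2 hζ), hμ.card_nthRootsFinset]
  rw [← hc]
  apply prod_le_pow_card
  intro ζ' hζ'
  rw [mem_erase, mem_roots hd] at hζ'
  exact v_sub_le v hd.ne' hζ'.2 x y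

/-- at potentially good places the differences do not increase -/
lemma good_step (hμ : IsPrimitiveRoot μ d) (hd : 0 < d) {ζ : L} (hζ : ζ ^ d = 1) {x y : L}
    (hx : v a * v x ^ (d - 1) ≤ 1) (hy : v a * v y ^ (d - 1) ≤ 1) :
    v (fu a b d x - fu a b d y) ≤ v (x - ζ * y) := by
  classical
  rw [v_fu_sub v hμ hd, ← mul_prod_erase _ _ ((mem_roots hd).2 hζ)]
  have h1 := prod_erase_le v hμ hd hζ x y
  have h2 : v a * max (v x) (v y) ^ (d - 1) ≤ 1 := by
    rcases max_choice (v x) (v y) with h | h <;> rw [h] <;> assumption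
  calc v a * (v (x - ζ * y) * ∏ ζ' ∈ (nthRootsFinset d (1 : L)).erase ζ, v (x - ζ' * y))
      ≤ v a * (v (x - ζ * y) * max (v x) (v y) ^ (d - 1)) := by gcongr
    _ = v (x - ζ * y) * (v a * max (v x) (v y) ^ (d - 1)) := by ac_rfl
    _ ≤ v (x - ζ * y) * 1 := by gcongr
    _ = _ := mul_one _

end val

end Pool.Agent.Zk42.UC
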