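import Pool.Agent.Zk42.UC.Main

/-! The number of the preperiodic points over a number field containing the roots of unity. -/

set_option autoImplicit false

namespace Pool.Agent.Zk42.UC

open IsDedekindDomain NumberField Polynomial Finset
open scoped WithZero

variable {L : Type} [Field L] [NumberField L] [DecidableEq L] {d n : ℕ} {μ : L} {a b : L}

/-- every preperiodic point comes from the periodic points and the finite set of ratios -/
lemma cases_pp {S : Set (HeightOneSpectrum (𝓞 L))} (hdS : ∀ v ∉ S, v.valuation L (d : L) = 1)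
    {T : Finset L} (hT : Good S n T) (hμ : IsPrimitiveRoot μ d) (hd : 2 ≤ d) (ha : a ≠ 0)
    (hC : Cond S a b d n) {u : L} (hu : PP (fu a b d) u) :
    Per (fu a b d) u ∨ ∃ w : L, Per (fu a b d) w ∧ w ≠ 0 ∧
      ((∃ ζ : L, ζ ^ d = 1 ∧ u = ζ * w) ∨ u / w ∈ Rset L d n T ∨
        fu a b d u / w ∈ Rset L d n T) := by
  by_cases hp : Per (fu a b d) u
  · exact Or.inl hp
  right
  obtain ⟨k, w, ζ, hw, hw0, hζ, hζ1, hk⟩ := exists_tail ha (by omega) hu hp
  rcases Nat.eq_zero_or_pos k with hk0 | hk0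
  · refine ⟨w, hw, hw0, Or.inl ⟨ζ, hζ, ?_⟩⟩
    rw [hk0, Function.iterate_zero, id] at hk
    exact hk
  -- `ζ w` is not periodic
  have hnp : ¬ Per (fu a b d) (ζ * w) := by
    intro h
    have h1 : (fu a b d)^[1] (ζ * w) = (fu a b d)^[1] w := fu_zeta hζ w
    have h2 := per_inj h hw h1
    apply hζ1
    apply mul_right_cancel₀ hw0
    rw [h2, one_mul]
  by_cases hA : ∃ y : L, Per (fu a b d) y ∧ y ≠ 0 ∧ (fu a b d)^[k] y ≠ w
  · obtain ⟨y, hy, hy0, hyw⟩ := hA
    refine ⟨y, hy, hy0, Or.inr (Or.inl ?_)⟩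
    exact tail_ratio hdS hT hμ hd hC hu hy hw hζ hζ1 hk0 hk hyw
      (fun h => hnp (h ▸ hy.iter k)) hy0
  · push Not at hA
    have hkw := hA w hw hw0
    by_cases hfw : fu a b d w = w
    · exact ⟨w, hw, hw0, Or.inr (Or.inl (tail_one_ratio hdS hT hμ hd hC hu hfw hζ hζ1 hk0 hk hw0))⟩
    · have hfw0 : fu a b d w = 0 := by
        by_contra h0
        have h1 := hA _ hw.map h0
        exact hfw (per_inj hw.map hw (h1.trans hkw.symm))
      obtain ⟨j, rfl⟩ : ∃ j, k = j + 1 := ⟨k - 1, by omega⟩
      have hj : 1 ≤ j := by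
        by_contra hj
        have : j = 0 := by omega
        subst this
        exact hfw hkw
      refine ⟨w, hw, hw0, Or.inr (Or.inr ?_)⟩
      rw [Function.iterate_succ_apply] at hk hkw
      have hjw : (fu a b d)^[j] w ≠ w := by
        intro h
        exact hfw (per_inj hw.map hw (hkw.trans h.symm))
      exact tail_ratio hdS hT hμ hd hC hu.map hw hw hζ hζ1 hj hk hjw
        (fun h => hnp (h ▸ hw.iter j)) hw0

/-- uniform bound over a field containing the roots of unity -/
theorem main_L (S : Set (HeightOneSpectrum (𝓞 L))) (hdS : ∀ v ∉ S, v.valuation L (d : L) = 1)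
    {T : Finset L} (hT : Good S n T) (hμ : IsPrimitiveRoot μ d) (hd : 2 ≤ d)
    (hR : (Rset L d n T).Finite) :
    ∃ B : ℕ, ∀ a b : L, a ≠ 0 → Cond S a b d n → ∀ X : Finset L,
      (∀ x ∈ X, PP (fu a b d) x) → X.card ≤ B := by
  classical
  set R := hR.toFinset with hRdef
  have hmem : ∀ x, x ∈ Rset L d n T ↔ x ∈ R := fun x => by rw [hRdef, Set.Finite.mem_toFinset]
  refine ⟨1 + ((R.card + 1) + d * (R.card + 1) + R.card * (R.card + 1) +
    (R.card * (R.card + 1)) * d), ?_⟩
  intro a b ha hC X hX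
  by_cases h0 : ∃ y : L, Per (fu a b d) y ∧ y ≠ 0
  swap
  · push Not at h0
    have : X ⊆ {0} := by
      intro x hx
      rw [mem_singleton]
      rcases cases_pp hdS hT hμ hd ha hC (hX x hx) with h | ⟨w, hw, hw0, -⟩
      · exact h0 x h
      · exact absurd (h0 w hw) hw0
    have h1 := card_le_card this
    rw [card_singleton] at h1
    exact h1.trans (Nat.le_add_right _ _)
  obtain ⟨y0, hy0, hy00⟩ := h0
  set PF := insert y0 (R.image (fun t => t * y0)) with hPF
  have hPFcard : PF.card ≤ R.card + 1 := (card_insert_le _ _).trans (by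
    have := card_image_le (s := R) (f := fun t => t * y0)
    omega)
  have hPmem : ∀ x : L, Per (fu a b d) x → x ∈ PF := by
    intro x hx
    by_cases hxy : x = y0
    · rw [hPF, hxy]; exact mem_insert_self _ _
    · rw [hPF]
      refine mem_insert_of_mem (mem_image.2 ⟨x / y0, (hmem _).1 ?_, div_mul_cancel₀ _ hy00⟩)
      exact per_ratio hdS hT hμ hd hC hx hy0 hxy hy00
  set A1 := (nthRootsFinset d (1 : L) ×ˢ PF).image (fun p => p.1 * p.2) with hA1
  set A2 := (R ×ˢ PF).image (fun p => p.1 * p.2) with hA2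
  set A3 := (R ×ˢ PF).biUnion (fun p => (nthRoots d ((p.1 * p.2 - b) / a)).toFinset) with hA3
  have hsub : X ⊆ ((PF ∪ A1) ∪ A2) ∪ A3 := by
    intro x hx
    rcases cases_pp hdS hT hμ hd ha hC (hX x hx) with h | ⟨w, hw, hw0, ⟨ζ, hζ, hx'⟩ | h | h⟩
    · exact mem_union_left _ (mem_union_left _ (mem_union_left _ (hPmem x h)))
    · refine mem_union_left _ (mem_union_left _ (mem_union_right _ ?_))
      exact mem_image.2 ⟨(ζ, w), mem_product.2 ⟨(mem_roots (by omega)).2 hζ, hPmem w hw⟩, hx'.symm⟩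
    · refine mem_union_left _ (mem_union_right _ ?_)
      exact mem_image.2 ⟨(x / w, w), mem_product.2 ⟨(hmem _).1 h, hPmem w hw⟩,
        div_mul_cancel₀ _ hw0⟩
    · refine mem_union_right _ ?_
      refine mem_biUnion.2 ⟨(fu a b d x / w, w), mem_product.2 ⟨(hmem _).1 h, hPmem w hw⟩, ?_⟩
      rw [Multiset.mem_toFinset, mem_nthRoots (by omega)]
      show x ^ d = (fu a b d x / w * w - b) / a
      rw [div_mul_cancel₀ _ hw0]
      unfold fu
      field_simp
      ring
  have c1 : A1.card ≤ d * (R.card + 1) := by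
    refine card_image_le.trans ?_
    rw [card_product, hμ.card_nthRootsFinset]
    exact Nat.mul_le_mul_left _ hPFcard
  have c2 : A2.card ≤ R.card * (R.card + 1) := by
    refine card_image_le.trans ?_
    rw [card_product]
    exact Nat.mul_le_mul_left _ hPFcard
  have c3 : A3.card ≤ (R.card * (R.card + 1)) * d := by
    refine (card_biUnion_le_card_mul _ _ d ?_).trans ?_
    · intro p _
      exact (Multiset.toFinset_card_le _).trans (card_nthRoots _ _)
    · rw [card_product]
      exact Nat.mul_le_mul_right _ (Nat.mul_le_mul_left _ hPFcard)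
  have c4 := card_le_card hsub
  have c5 := card_union_le ((PF ∪ A1) ∪ A2) A3
  have c6 := card_union_le (PF ∪ A1) A2
  have c7 := card_union_le PF A1
  omega

end Pool.Agent.Zk42.UC
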