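import Pool.Agent.Zk42.UC.Desc

/-! All but finitely many polynomials have no preperiodic points besides the points `ζ w`, `w` a
fixed point. -/

set_option autoImplicit false

namespace Pool.Agent.Zk42.UC

open IsDedekindDomain NumberField Polynomial Finset
open scoped WithZero

section abs

variable {K : Type*} [Field K] {a b : K} {d : ℕ}

/-- the finite set of exceptional pairs -/
noncomputable def excSet [DecidableEq K] (d : ℕ) (R U : Finset K) : Finset (K × K) :=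
  (R ×ˢ (U ×ˢ U)).image fun p =>
    ((p.2.1 - p.2.2) / (p.1 ^ d - 1), p.2.2 - (p.2.1 - p.2.2) / (p.1 ^ d - 1))

lemma mem_excSet [DecidableEq K] {R U : Finset K} {y ρ ρ₁ ρ₂ : K} (hy : y ≠ 0) (hρ : ρ ∈ R)
    (hρd : ρ ^ d ≠ 1) (h₁ : ρ₁ ∈ U) (h₂ : ρ₂ ∈ U) (e1 : fu a b d (ρ * y) = ρ₁ * y)
    (e2 : fu a b d y = ρ₂ * y) (hd : 1 ≤ d) : (a * y ^ (d - 1), b / y) ∈ excSet d R U := by
  have hs : ρ ^ d - 1 ≠ 0 := sub_ne_zero.2 hρd
  unfold fu at e1 e2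
  obtain ⟨e, rfl⟩ : ∃ e, d = e + 1 := ⟨d - 1, by omega⟩
  rw [Nat.add_sub_cancel]
  have e3 : a * y ^ e + b / y = ρ₂ := by
    apply mul_right_cancel₀ hy
    rw [← e2, add_mul, div_mul_cancel₀ _ hy, pow_succ, mul_assoc]
  have e4 : a * y ^ e * ρ ^ (e + 1) + b / y = ρ₁ := by
    apply mul_right_cancel₀ hy
    rw [← e1, add_mul, div_mul_cancel₀ _ hy, mul_pow, pow_succ y]
    ring
  have e5 : a * y ^ e = (ρ₁ - ρ₂) / (ρ ^ (e + 1) - 1) := by
    rw [eq_div_iff hs, ← e3, ← e4]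
    ring
  refine mem_image.2 ⟨(ρ, ρ₁, ρ₂), mem_product.2 ⟨hρ, mem_product.2 ⟨h₁, h₂⟩⟩, ?_⟩
  show ((ρ₁ - ρ₂) / (ρ ^ (e + 1) - 1), ρ₂ - (ρ₁ - ρ₂) / (ρ ^ (e + 1) - 1)) = _
  rw [← e5]
  ext
  · rfl
  · show ρ₂ - a * y ^ e = b / y
    rw [← e3]
    ring

/-- the alternative -/
theorem dichotomy [DecidableEq K] (ha : a ≠ 0) (hd : 2 ≤ d) {R U : Finset K}
    (hRd : ∀ ρ ∈ R, ρ ^ d ≠ 1) (hRU : R ⊆ U) (hU : ∀ ζ : K, ζ ^ d = 1 → ζ ∈ U)
    (h1 : ∀ x y : K, Per (fu a b d) x → Per (fu a b d) y → x ≠ y → y ≠ 0 → x / y ∈ R)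
    (h3 : ∀ (x z ζ : K) (k : ℕ), PP (fu a b d) x → fu a b d z = z → ζ ^ d = 1 → ζ ≠ 1 → 1 ≤ k →
      (fu a b d)^[k] x = ζ * z → z ≠ 0 → x / z ∈ R) :
    (∃ y : K, y ≠ 0 ∧ (a * y ^ (d - 1), b / y) ∈ excSet d R U) ∨ (∀ x : K, ¬ PP (fu a b d) x) ∨
      ∃ w : K, fu a b d w = w ∧ ∀ x : K, PP (fu a b d) x ↔ x ^ d = w ^ d := by
  by_cases hno : ∀ x : K, ¬ PP (fu a b d) x
  · exact Or.inr (Or.inl hno)
  push Not at hno
  obtain ⟨x0, hx0⟩ := hno
  obtain ⟨k0, hw⟩ := hx0.exists_per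
  set w := (fu a b d)^[k0] x0 with hwdef
  have key : ∀ x y : K, Per (fu a b d) x → Per (fu a b d) y → x ≠ y → y ≠ 0 →
      (∃ y : K, y ≠ 0 ∧ (a * y ^ (d - 1), b / y) ∈ excSet d R U) := by
    intro x y hx hy hne hy0
    have hmem : ∀ z : K, Per (fu a b d) z → z / y ∈ U := by
      intro z hz
      by_cases hzy : z = y
      · rw [hzy, div_self hy0]
        exact hU 1 (one_pow d)
      · exact hRU (h1 z y hz hy hzy hy0)
    have hρ := h1 x y hx hy hne hy0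
    refine ⟨y, hy0, mem_excSet hy0 hρ (hRd _ hρ) (hmem _ hx.map) (hmem _ hy.map) ?_ ?_ (by omega)⟩
    · rw [div_mul_cancel₀ _ hy0, div_mul_cancel₀ _ hy0]
    · rw [div_mul_cancel₀ _ hy0]
  by_cases hex : ∃ y : K, y ≠ 0 ∧ (a * y ^ (d - 1), b / y) ∈ excSet d R U
  · exact Or.inl hex
  -- only one periodic point
  have honly : ∀ x : K, Per (fu a b d) x → x = w := by
    intro x hx
    by_contra hne
    by_cases hw0 : w = 0
    · refine hex (key w x hw hx (Ne.symm hne) ?_)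
      rw [hw0] at hne
      exact hne
    · exact hex (key x w hx hw hne hw0)
  have hfw : fu a b d w = w := honly _ hw.map
  refine Or.inr (Or.inr ⟨w, hfw, ?_⟩)
  have hback : ∀ x : K, x ^ d = w ^ d → PP (fu a b d) x := by
    intro x hx
    have hfx : fu a b d x = w := by
      rw [← hfw]
      unfold fu
      rw [hx]
    refine ⟨1, 2, by norm_num, ?_⟩
    show fu a b d x = fu a b d (fu a b d x)
    rw [hfx, hfw]
  intro x
  refine ⟨?_, hback x⟩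
  intro hx
  by_contra hxw
  have hxnp : ¬ Per (fu a b d) x := fun h => hxw (by rw [honly x h])
  obtain ⟨k, w', ζ, hw', hw'0, hζ, hζ1, hk⟩ := exists_tail ha (by omega) hx hxnp
  rw [honly w' hw'] at hw'0 hk
  have hk1 : 1 ≤ k := by
    by_contra hk0
    have : k = 0 := by omega
    subst this
    apply hxw
    have h2 : x = ζ * w := hk
    rw [h2, mul_pow, hζ, one_mul]
  have hρ := h3 x w ζ k hx hfw hζ hζ1 hk1 hk hw'0
  -- the ratio of `f x`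
  have hfxU : fu a b d x / w ∈ U := by
    obtain ⟨j, rfl⟩ : ∃ j, k = j + 1 := ⟨k - 1, by omega⟩
    rw [Function.iterate_succ_apply] at hk
    rcases Nat.eq_zero_or_pos j with rfl | hj
    · have h2 : fu a b d x = ζ * w := hk
      rw [h2, mul_div_cancel_right₀ _ hw'0]
      exact hU ζ hζ
    · exact hRU (h3 _ w ζ j hx.map hfw hζ hζ1 hj hk hw'0)
  apply hex
  refine ⟨w, hw'0, mem_excSet hw'0 hρ (hRd _ hρ) hfxU (hU 1 (one_pow d)) ?_ ?_ (by omega)⟩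
  · rw [div_mul_cancel₀ _ hw'0, div_mul_cancel₀ _ hw'0]
  · rw [one_mul, hfw]

end abs

end Pool.Agent.Zk42.UC
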