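import Pool.Agent.T6.H62.PP.GFin
import Pool.Agent.T6.H62.PP.Sel
import Pool.Agent.H437R2.Man.MWSel

/-! Finiteness of the ratios. -/

set_option autoImplicit false

namespace Pool.Agent.Zk42.UC

open IsDedekindDomain NumberField Polynomial
open scoped WithZero

/-- elements whose valuations outside `S` are `n`-th powers are `n`-th powers up to finitely many
factors -/
def SelN (n : ℕ) : Prop := ∀ (K : Type) [Field K] [NumberField K] (S : Set (HeightOneSpectrum (𝓞 K))),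
  S.Finite → ∃ T : Finset K, (∀ t ∈ T, t ≠ 0) ∧ ∀ a : K, a ≠ 0 →
    (∀ v : HeightOneSpectrum (𝓞 K), v ∉ S → ∃ g : ℤᵐ⁰, v.valuation K a = g ^ n) →
    ∃ t ∈ T, ∃ b : K, b ≠ 0 ∧ a = t * b ^ n

lemma dvd_of_pow {K : Type} [Field K] [NumberField K] (v : HeightOneSpectrum (𝓞 K)) (a : Kˣ)
    {n : ℕ} {g : ℤᵐ⁰} (h : v.valuation K (a : K) = g ^ n) :
    (n : ℤ) ∣ Multiplicative.toAdd (v.valuationOfNeZero a) := by
  have h1 : ((v.valuationOfNeZero a : Multiplicative ℤ) : WithZero (Multiplicative ℤ)) =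
      v.valuation K (a : K) := v.valuationOfNeZero_eq a
  rcases n with _ | n
  · rw [h, pow_zero] at h1
    have h2 : v.valuationOfNeZero a = 1 := by
      apply WithZero.coe_injective
      rw [h1]; rfl
    rw [h2]
    simp
  have hg0 : g ≠ 0 := by
    rintro rfl
    rw [zero_pow (Nat.succ_ne_zero n)] at h
    rw [h] at h1
    exact WithZero.coe_ne_zero h1
  obtain ⟨m, rfl⟩ := WithZero.ne_zero_iff_exists.1 hg0
  rw [h, ← WithZero.coe_pow] at h1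
  have h2 := WithZero.coe_injective h1
  rw [h2, toAdd_pow]
  exact ⟨Multiplicative.toAdd m, by simp⟩

theorem sel3 : SelN 3 := by
  intro K _ _ S hS
  obtain ⟨T, hT, h⟩ := Pool.Agent.T6.H62.PP.sel K S hS
  refine ⟨T, hT, fun a ha hv => ?_⟩
  exact h (Units.mk0 a ha) fun v hvS => by
    obtain ⟨g, hg⟩ := hv v hvS
    exact dvd_of_pow v (Units.mk0 a ha) hg

theorem sel2 : SelN 2 := by
  intro K _ _ S hS
  obtain ⟨T, hT, h⟩ := Pool.Agent.H437R2.Man.MW.sel_finite (K := K) S hS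
  refine ⟨T, hT, fun a ha hv => ?_⟩
  have := h (Units.mk0 a ha) fun v hvS => by
    obtain ⟨g, hg⟩ := hv v hvS
    have := dvd_of_pow v (Units.mk0 a ha) hg
    exact even_iff_two_dvd.2 (by exact_mod_cast this)
  exact this

theorem sel6 : SelN 6 := by
  intro K _ _ S hS
  classical
  obtain ⟨T3, hT3, h3⟩ := sel3 K S hS
  obtain ⟨T2, hT2, h2⟩ := sel2 K S hS
  refine ⟨(T3 ×ˢ T2).image (fun p => p.2 ^ 3 * (p.1 ^ 2)⁻¹), ?_, ?_⟩
  · intro t ht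
    obtain ⟨p, hp, rfl⟩ := Finset.mem_image.1 ht
    rw [Finset.mem_product] at hp
    exact mul_ne_zero (pow_ne_zero _ (hT2 _ hp.2)) (inv_ne_zero (pow_ne_zero _ (hT3 _ hp.1)))
  · intro a ha hv
    obtain ⟨t3, ht3, b3, hb3, e3⟩ := h3 a ha fun v hvS => by
      obtain ⟨g, hg⟩ := hv v hvS
      exact ⟨g ^ 2, by rw [hg, ← pow_mul]⟩
    obtain ⟨t2, ht2, b2, hb2, e2⟩ := h2 a ha fun v hvS => by
      obtain ⟨g, hg⟩ := hv v hvS
      exact ⟨g ^ 3, by rw [hg, ← pow_mul]⟩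
    refine ⟨t2 ^ 3 * (t3 ^ 2)⁻¹, Finset.mem_image.2 ⟨(t3, t2), Finset.mem_product.2 ⟨ht3, ht2⟩, rfl⟩,
      b2 / b3, div_ne_zero hb2 hb3, ?_⟩
    have h30 := hT3 _ ht3
    have e : a * (t3 * b3 ^ 3) ^ 2 = (t2 * b2 ^ 2) ^ 3 := by
      rw [← e3, ← e2]; ring
    field_simp
    linear_combination e

/-- the ratios of two points all of whose factors are `n`-th powers up to finitely many factors -/
def Rset (L : Type) [Field L] (d n : ℕ) (T : Finset L) : Set L :=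
  {t | t ^ d ≠ 1 ∧ ∀ ζ₁ ζ₂ : L, ζ₁ ^ d = 1 → ζ₂ ^ d = 1 → ζ₁ ≠ 1 → ζ₂ ≠ 1 →
    ∃ τ ∈ T, ∃ z : L, z ≠ 0 ∧ t - ζ₁ = τ * z ^ n * (t - ζ₂)}

/-- roots exist in number fields -/
theorem exists_root (K : Type) [Field K] [NumberField K] (n : ℕ) (hn : 0 < n) (c : K) :
    ∃ (L : Type) (_ : Field L) (_ : NumberField L) (φ : K →+* L) (θ : L), θ ^ n = φ c := by
  classical
  let p : K[X] := X ^ n - C c
  have hp : p.degree = n := degree_X_pow_sub_C hn c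
  refine ⟨p.SplittingField, inferInstance, NumberField.of_module_finite K p.SplittingField,
    algebraMap K p.SplittingField, ?_⟩
  have hs := SplittingField.splits p
  have hdeg : (p.map (algebraMap K p.SplittingField)).degree ≠ 0 := by
    rw [degree_map, hp]
    exact_mod_cast hn.ne'
  obtain ⟨θ, hθ⟩ := hs.exists_eval_eq_zero hdeg
  refine ⟨θ, ?_⟩
  have : θ ^ n - algebraMap K p.SplittingField c = 0 := by
    simpa [p] using hθ
  exact sub_eq_zero.mp this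

theorem exists_roots (K : Type) [Field K] [NumberField K] (m n : ℕ) (hm : 0 < m) (hn : 0 < n)
    (c c' : K) :
    ∃ (L : Type) (_ : Field L) (_ : NumberField L) (φ : K →+* L) (α γ : L),
      α ^ m = φ c ∧ γ ^ n = φ c' := by
  obtain ⟨L₁, _, _, φ₁, α, hα⟩ := exists_root K m hm c
  obtain ⟨L₂, _, _, φ₂, γ, hγ⟩ := exists_root L₁ n hn (φ₁ c')
  exact ⟨L₂, inferInstance, inferInstance, φ₂.comp φ₁, φ₂ α, γ, by
    rw [← map_pow, hα]; rfl, hγ⟩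

/-- twisted Fermat sextics -/
theorem fermat6 (K : Type) [Field K] [NumberField K] {A B C : K} (hA : A ≠ 0) (hB : B ≠ 0) :
    {z : K | ∃ w : K, A * z ^ 6 + B = C * w ^ 6}.Finite := by
  obtain ⟨L, _, _, φ, α, γ, hα, hγ⟩ := exists_roots K 6 2 (by norm_num) (by norm_num) (A / B) (C / B)
  have hα0 : α ≠ 0 := by
    rintro rfl
    rw [zero_pow (by norm_num)] at hα
    exact div_ne_zero hA hB ((map_eq_zero φ).1 hα.symm)
  have hinj : Function.Injective (fun z : K => α * φ z) := by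
    intro z z' h
    exact φ.injective (mul_left_cancel₀ hα0 h)
  refine Set.Finite.subset ((Pool.Agent.H437R2.Man.mordell L).preimage hinj.injOn) ?_
  rintro z ⟨w, hw⟩
  refine ⟨γ * φ w ^ 3, ?_⟩
  have e : A / B * z ^ 6 + 1 = C / B * w ^ 6 := by
    field_simp
    exact hw
  have e2 := congrArg φ e
  rw [map_add, map_mul, map_mul, map_one, map_pow, map_pow, ← hα, ← hγ] at e2
  linear_combination -e2

theorem rfin6 (L : Type) [Field L] [NumberField L] {d : ℕ} {μ : L} (hμ : IsPrimitiveRoot μ d)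
    (hd : 4 ≤ d) (T : Finset L) (hT : ∀ t ∈ T, t ≠ 0) : (Rset L d 6 T).Finite := by
  classical
  have hμd : μ ^ d = 1 := hμ.pow_eq_one
  have hne : ∀ i j : ℕ, i < d → j < d → i ≠ j → μ ^ i ≠ μ ^ j := fun i j hi hj hij h =>
    hij (hμ.pow_inj hi hj h)
  have n1 : μ ≠ 1 := by simpa using hne 1 0 (by omega) (by omega) (by norm_num)
  have n2 : μ ^ 2 ≠ 1 := by simpa using hne 2 0 (by omega) (by omega) (by norm_num)
  have n3 : μ ^ 3 ≠ 1 := by simpa using hne 3 0 (by omega) (by omega) (by norm_num)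
  have n12 : μ ^ 2 ≠ μ := by simpa using hne 2 1 (by omega) (by omega) (by norm_num)
  have n13 : μ ^ 3 ≠ μ := by simpa using hne 3 1 (by omega) (by omega) (by norm_num)
  have n23 : μ ^ 3 ≠ μ ^ 2 := hne 3 2 (by omega) (by omega) (by norm_num)
  have p2 : (μ ^ 2) ^ d = 1 := by rw [← pow_mul, mul_comm, pow_mul, hμd, one_pow]
  have p3 : (μ ^ 3) ^ d = 1 := by rw [← pow_mul, mul_comm, pow_mul, hμd, one_pow]
  -- one pair of factors
  have key : ∀ τ₁ τ₂ : L, τ₁ ≠ 0 → {t : L | t ^ d ≠ 1 ∧ ∃ z₁ z₂ : L,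
      t - μ = τ₁ * z₁ ^ 6 * (t - μ ^ 3) ∧ t - μ ^ 2 = τ₂ * z₂ ^ 6 * (t - μ ^ 3)}.Finite := by
    intro τ₁ τ₂ h₁
    have hZ := fermat6 L (A := (μ ^ 3 - μ ^ 2) * τ₁) (B := μ ^ 2 - μ) (C := (μ ^ 3 - μ) * τ₂)
      (mul_ne_zero (sub_ne_zero.2 n23) h₁) (sub_ne_zero.2 n12)
    refine (hZ.image (fun z => μ ^ 3 + (μ ^ 3 - μ) / (τ₁ * z ^ 6 - 1))).subset ?_
    rintro t ⟨ht, z₁, z₂, e1, e2⟩
    have hs : t - μ ^ 3 ≠ 0 := by
      intro h
      apply ht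
      rw [sub_eq_zero.1 h, p3]
    have e1' : μ ^ 3 - μ = (τ₁ * z₁ ^ 6 - 1) * (t - μ ^ 3) := by linear_combination e1
    have e2' : μ ^ 3 - μ ^ 2 = (τ₂ * z₂ ^ 6 - 1) * (t - μ ^ 3) := by linear_combination e2
    have hw : τ₁ * z₁ ^ 6 - 1 ≠ 0 := by
      intro h
      rw [h, zero_mul] at e1'
      exact n13 (sub_eq_zero.1 e1')
    refine ⟨z₁, ⟨z₂, ?_⟩, ?_⟩
    · apply mul_right_cancel₀ hs
      linear_combination (μ ^ 3 - μ ^ 2) * (-e1') + (μ ^ 3 - μ) * e2'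
    · show μ ^ 3 + (μ ^ 3 - μ) / (τ₁ * z₁ ^ 6 - 1) = t
      rw [e1', mul_div_cancel_left₀ _ hw]
      ring
  refine (Set.Finite.biUnion ((T ×ˢ T).finite_toSet) (t := fun p => {t : L | t ^ d ≠ 1 ∧ ∃ z₁ z₂ : L,
      t - μ = p.1 * z₁ ^ 6 * (t - μ ^ 3) ∧ t - μ ^ 2 = p.2 * z₂ ^ 6 * (t - μ ^ 3)}) ?_).subset ?_
  · intro p hp
    rw [Finset.mem_coe, Finset.mem_product] at hp
    exact key p.1 p.2 (hT _ hp.1)
  · rintro t ⟨ht, h⟩
    obtain ⟨τ₁, hτ₁, z₁, -, e1⟩ := h μ (μ ^ 3) hμd p3 n1 n3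
    obtain ⟨τ₂, hτ₂, z₂, -, e2⟩ := h (μ ^ 2) (μ ^ 3) p2 p3 n2 n3
    simp only [Set.mem_iUnion]
    exact ⟨(τ₁, τ₂), Finset.mem_coe.2 (Finset.mem_product.2 ⟨hτ₁, hτ₂⟩), ht, z₁, z₂, e1, e2⟩

theorem rfin3 (L : Type) [Field L] [NumberField L] {d : ℕ} {μ : L} (hμ : IsPrimitiveRoot μ d)
    (hd : 6 ≤ d) (hde : Even d) (T : Finset L) (hT : ∀ t ∈ T, t ≠ 0) : (Rset L d 3 T).Finite := by
  classical
  have hμd : μ ^ d = 1 := hμ.pow_eq_one
  have hμ0 : μ ≠ 0 := by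
    rintro rfl
    rw [zero_pow (by omega)] at hμd
    exact zero_ne_one hμd
  have hne : ∀ i j : ℕ, i < d → j < d → i ≠ j → μ ^ i ≠ μ ^ j := fun i j hi hj hij h =>
    hij (hμ.pow_inj hi hj h)
  have n1 : μ ≠ 1 := by simpa using hne 1 0 (by omega) (by omega) (by norm_num)
  have n3 : μ ^ 3 ≠ 1 := by simpa using hne 3 0 (by omega) (by omega) (by norm_num)
  have n4 : μ ^ 4 ≠ 1 := by simpa using hne 4 0 (by omega) (by omega) (by norm_num)
  have n2 : μ ^ 2 ≠ 1 := by simpa using hne 2 0 (by omega) (by omega) (by norm_num)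
  have p3 : (μ ^ 3) ^ d = 1 := by rw [← pow_mul, mul_comm, pow_mul, hμd, one_pow]
  have pm : (-μ) ^ d = 1 := by rw [hde.neg_pow, hμd]
  have nm : -μ ≠ 1 := by
    intro h
    apply n2
    have : μ = -1 := by linear_combination -h
    rw [this]; ring
  have pi : (μ⁻¹) ^ d = 1 := by rw [inv_pow, hμd, inv_one]
  have ni : μ⁻¹ ≠ 1 := fun h => n1 (inv_eq_one.1 h)
  have hG := Pool.Agent.T6.H62.PP.gfin L ((T ×ˢ T).image (fun p => p.1 * p.2))
    (by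
      intro t ht
      obtain ⟨p, hp, rfl⟩ := Finset.mem_image.1 ht
      rw [Finset.mem_product] at hp
      exact mul_ne_zero (hT _ hp.1) (hT _ hp.2)) (μ ^ 2) (pow_ne_zero _ hμ0)
    (by rw [← pow_mul]; exact n4)
  have hinj : Function.Injective (fun t : L => t / μ) := by
    intro t t' h
    exact (div_left_inj' hμ0).1 h
  refine (hG.preimage hinj.injOn).subset ?_
  rintro t ⟨ht, h⟩
  obtain ⟨τ₁, hτ₁, z₁, hz₁, e1⟩ := h (μ ^ 3) μ p3 hμd n3 n1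
  obtain ⟨τ₂, hτ₂, z₂, hz₂, e2⟩ := h μ⁻¹ (-μ) pi pm ni nm
  have htμ : t ^ 2 ≠ μ ^ 2 := by
    intro h5
    apply ht
    obtain ⟨e, he⟩ := hde
    have hμd' := hμd
    rw [he, ← two_mul, pow_mul] at hμd' ⊢
    rw [h5, hμd']
  refine ⟨?_, τ₁ * τ₂, Finset.mem_image.2 ⟨(τ₁, τ₂), Finset.mem_product.2 ⟨hτ₁, hτ₂⟩, rfl⟩,
    z₁ * z₂, mul_ne_zero hz₁ hz₂, ?_⟩
  · intro h
    apply htμ
    rw [div_pow, div_eq_one_iff_eq (pow_ne_zero _ hμ0)] at h
    exact h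
  · have hii : μ * μ⁻¹ = 1 := mul_inv_cancel₀ hμ0
    have e3 : (t - μ ^ 3) * (t - μ⁻¹) = τ₁ * τ₂ * (z₁ * z₂) ^ 3 * (t ^ 2 - μ ^ 2) := by
      rw [e1, e2]; ring
    show (t / μ) ^ 2 - (μ ^ 2 + (μ ^ 2)⁻¹) * (t / μ) + 1 =
      τ₁ * τ₂ * (z₁ * z₂) ^ 3 * ((t / μ) ^ 2 - 1)
    have e4 : (t / μ) ^ 2 - (μ ^ 2 + (μ ^ 2)⁻¹) * (t / μ) + 1 =
        ((t - μ ^ 3) * (t - μ⁻¹)) / μ ^ 2 := by
      field_simp
      ring
    rw [e4, e3]
    field_simp

end Pool.Agent.Zk42.UC
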