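import Pool.Agent.Zk42.UC.Loc

/-! Local analysis of the preperiodic points of `a x ^ d + b`: the factors of the differences. -/

set_option autoImplicit false

namespace Pool.Agent.Zk42.UC

open Finset Polynomial

section val

variable {L : Type*} [Field L] [DecidableEq L] {Γ : Type*} [LinearOrderedCommGroupWithZero Γ]
  (v : Valuation L Γ) {a b : L} {d : ℕ} {μ : L}

lemma good_iter (hμ : IsPrimitiveRoot μ d) (hd : 2 ≤ d) (ht : v a * v b ^ (d - 1) ≤ 1) {x y : L}
    (hx : PP (fu a b d) x) (hy : PP (fu a b d) y) (k : ℕ) :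
    v ((fu a b d)^[k] x - (fu a b d)^[k] y) ≤ v (x - y) := by
  induction k with
  | zero => exact le_rfl
  | succ k ih =>
    rw [Function.iterate_succ_apply', Function.iterate_succ_apply']
    refine le_trans ?_ ih
    have := good_step v (a := a) (b := b) hμ (by omega) (one_pow d)
      (good_bound v hd ht (hx.iter k)) (good_bound v hd ht (hy.iter k))
    rwa [one_mul] at this

/-- periodic pairs at potentially good places -/
lemma good_per (hμ : IsPrimitiveRoot μ d) (hd : 2 ≤ d) (ht : v a * v b ^ (d - 1) ≤ 1) {x y : L}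
    (hx : Per (fu a b d) x) (hy : Per (fu a b d) y) (hne : x ≠ y) :
    v a * max (v x) (v y) ^ (d - 1) = 1 ∧
      ∀ ζ : L, ζ ^ d = 1 → ζ ≠ 1 → v (x - ζ * y) = max (v x) (v y) := by
  obtain ⟨N, hN, e1, e2⟩ := common_period hx hy
  have h1 : v (x - y) ≤ v (fu a b d x - fu a b d y) := by
    have h2 := good_iter v hμ hd ht hx.map.pp hy.map.pp (N - 1)
    rw [← Function.iterate_succ_apply, ← Function.iterate_succ_apply, Nat.succ_eq_add_one,
      Nat.sub_add_cancel hN, e1, e2] at h2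
    exact h2
  have h2 : v (fu a b d x - fu a b d y) ≤ v (x - y) := good_iter v hμ hd ht hx.pp hy.pp 1
  have h3 : v (fu a b d x - fu a b d y) = v (x - y) := le_antisymm h2 h1
  have hd0 : 0 < d := by omega
  have h1mem : (1 : L) ∈ nthRootsFinset d (1 : L) := (mem_roots hd0).2 (one_pow d)
  rw [v_fu_sub v hμ hd0, ← mul_prod_erase _ _ h1mem, one_mul] at h3
  set P := ∏ ζ' ∈ (nthRootsFinset d (1 : L)).erase 1, v (x - ζ' * y) with hP
  have hxy : v (x - y) ≠ 0 := (Valuation.ne_zero_iff v).2 (sub_ne_zero.2 hne)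
  have h4 : v a * P = 1 := by
    apply mul_left_cancel₀ hxy
    rw [mul_one]
    calc v (x - y) * (v a * P) = v a * (v (x - y) * P) := by ac_rfl
      _ = _ := h3
  set M := max (v x) (v y) with hM
  have hPM : P ≤ M ^ (d - 1) := prod_erase_le v hμ hd0 (one_pow d) x y
  have hxb := good_bound v hd ht hx.pp
  have hyb := good_bound v hd ht hy.pp
  have hMle : v a * M ^ (d - 1) ≤ 1 := by
    rcases max_choice (v x) (v y) with h | h <;> rw [hM, h] <;> assumption
  have hM1 : v a * M ^ (d - 1) = 1 := by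
    refine le_antisymm hMle ?_
    rw [← h4]
    gcongr
  refine ⟨hM1, ?_⟩
  intro ζ hζ hζ1
  have ha0 : v a ≠ 0 := left_ne_zero_of_mul_eq_one hM1
  have hM0 : M ≠ 0 := by
    intro h0
    rw [h0, zero_pow (by omega), mul_zero] at hM1
    exact zero_ne_one hM1
  refine le_antisymm (v_sub_le v hd0.ne' hζ x y) ?_
  have hmem : ζ ∈ (nthRootsFinset d (1 : L)).erase 1 := mem_erase.2 ⟨hζ1, (mem_roots hd0).2 hζ⟩
  have hP2 : P = v (x - ζ * y) * ∏ ζ' ∈ ((nthRootsFinset d (1 : L)).erase 1).erase ζ,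
      v (x - ζ' * y) := by rw [hP, ← mul_prod_erase _ _ hmem]
  have hP3 : ∏ ζ' ∈ ((nthRootsFinset d (1 : L)).erase 1).erase ζ, v (x - ζ' * y) ≤
      M ^ (d - 2) := by
    have hc : (((nthRootsFinset d (1 : L)).erase 1).erase ζ).card = d - 2 := by
      rw [card_erase_of_mem hmem, card_erase_of_mem h1mem, hμ.card_nthRootsFinset]
      omega
    rw [← hc]
    apply prod_le_pow_card
    intro ζ' hζ'
    rw [mem_erase, mem_erase, mem_roots hd0] at hζ'
    exact v_sub_le v hd0.ne' hζ'.2.2 x y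
  have hc0 : 0 < v a * M ^ (d - 2) := zero_lt_iff.2 (mul_ne_zero ha0 (pow_ne_zero _ hM0))
  refine le_of_mul_le_mul_left ?_ hc0
  calc v a * M ^ (d - 2) * M = v a * M ^ (d - 1) := by
        rw [mul_assoc, ← pow_succ]
        congr 2
        omega
    _ = v a * P := by rw [hM1, h4]
    _ = v a * (v (x - ζ * y) * ∏ ζ' ∈ ((nthRootsFinset d (1 : L)).erase 1).erase ζ,
      v (x - ζ' * y)) := by rw [hP2]
    _ ≤ v a * (v (x - ζ * y) * M ^ (d - 2)) := by gcongr
    _ = v a * M ^ (d - 2) * v (x - ζ * y) := by ac_rfl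

omit [DecidableEq L] in
/-- all preperiodic points have the same size at a bad place -/
lemma bad_eq (hd : 2 ≤ d) (ht : 1 < v a * v b ^ (d - 1)) {x y : L}
    (hx : PP (fu a b d) x) (hy : PP (fu a b d) y) : v x = v y := by
  have h1 := bad_bound v hd ht hx
  have h2 := bad_bound v hd ht hy
  have ha0 : v a ≠ 0 := by
    intro h0
    rw [h0, zero_mul] at ht
    exact absurd ht (not_lt.2 zero_le)
  have h3 : v x ^ d = v y ^ d := mul_left_cancel₀ ha0 (h1.trans h2.symm)
  rcases lt_trichotomy (v x) (v y) with h | h | h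
  · exact absurd h3 (pow_lt_pow_left₀ h zero_le (by omega)).ne
  · exact h
  · exact absurd h3 (pow_lt_pow_left₀ h zero_le (by omega)).ne'

omit [DecidableEq L] in
lemma bad_q (hd : 2 ≤ d) (ht : 1 < v a * v b ^ (d - 1)) {x : L}
    (hx : PP (fu a b d) x) : v x ≠ 0 ∧ (v a * v x ^ (d - 1)) ^ d = v a * v b ^ (d - 1) ∧
      1 < v a * v x ^ (d - 1) := by
  have h1 := bad_bound v hd ht hx
  have hb0 : v b ≠ 0 := by
    intro h0
    rw [h0, zero_pow (by omega), mul_zero] at ht
    exact absurd ht (not_lt.2 zero_le)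
  have hx0 : v x ≠ 0 := by
    intro h0
    rw [h0, zero_pow (by omega), mul_zero] at h1
    exact hb0 h1.symm
  have h2 : (v a * v x ^ (d - 1)) ^ d = v a * v b ^ (d - 1) := by
    rw [← h1]
    obtain ⟨e, rfl⟩ : ∃ e, d = e + 1 := ⟨d - 1, by omega⟩
    rw [Nat.add_sub_cancel, mul_pow, mul_pow, ← pow_mul, ← pow_mul, ← mul_assoc, ← pow_succ',
      Nat.mul_comm]
  refine ⟨hx0, h2, ?_⟩
  by_contra hc
  push Not at hc
  rw [← h2] at ht
  exact absurd ht (not_lt.2 (pow_le_one' hc d))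

/-- one step at a bad place -/
lemma bad_step (hμ : IsPrimitiveRoot μ d) (hd : 2 ≤ d) (hvd : v (d : L) = 1)
    (ht : 1 < v a * v b ^ (d - 1)) {x y : L}
    (hx : PP (fu a b d) x) (hy : PP (fu a b d) y) {ζ : L} (hζ : ζ ^ d = 1) :
    v (x - ζ * y) = v y ∨
      v a * v y ^ (d - 1) * v (x - ζ * y) = v (fu a b d x - fu a b d y) := by
  have hd0 : 0 < d := by omega
  by_cases h : v (x - ζ * y) = v y
  · exact Or.inl h
  right
  have hxy := bad_eq v hd ht hx hy
  have hlt : v (x - ζ * y) < v y := by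
    refine lt_of_le_of_ne ?_ h
    have := v_sub_le v hd0.ne' hζ x y
    rwa [hxy, max_self] at this
  rw [v_fu_sub v hμ hd0, ← mul_prod_erase _ _ ((mem_roots hd0).2 hζ)]
  have h1 : ∏ ζ' ∈ (nthRootsFinset d (1 : L)).erase ζ, v (x - ζ' * y) = v y ^ (d - 1) := by
    have hc : ((nthRootsFinset d (1 : L)).erase ζ).card = d - 1 := by
      rw [card_erase_of_mem ((mem_roots hd0).2 hζ), hμ.card_nthRootsFinset]
    rw [← hc]
    apply prod_eq_pow_card
    intro ζ' hζ'
    rw [mem_erase, mem_roots hd0] at hζ'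
    have e : x - ζ' * y = (x - ζ * y) + (ζ - ζ') * y := by ring
    rw [e, Valuation.map_add_eq_of_lt_right v]
    · rw [map_mul, v_zeta_sub v hd0 hvd hζ hζ'.2 (Ne.symm hζ'.1), one_mul]
    · rw [map_mul, v_zeta_sub v hd0 hvd hζ hζ'.2 (Ne.symm hζ'.1), one_mul]
      exact hlt
  rw [h1]
  ac_rfl

/-- differences at a bad place -/
lemma bad_diff (hμ : IsPrimitiveRoot μ d) (hd : 2 ≤ d) (hvd : v (d : L) = 1)
    (ht : 1 < v a * v b ^ (d - 1)) {x y : L}
    (hx : PP (fu a b d) x) (hy : PP (fu a b d) y) (hn : NM (fu a b d) x y) :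
    ∃ m : ℕ, v (x - y) * (v a * v y ^ (d - 1)) ^ m = v y := by
  obtain ⟨k, hk⟩ : ∃ k : ℕ, v ((fu a b d)^[k] x - (fu a b d)^[k] y) = v y := by
    by_contra hcon
    push Not at hcon
    obtain ⟨m, n, hmn, e1, e2⟩ := common_pp hx hy
    have h1 : StrictMono (fun k => v ((fu a b d)^[k] x - (fu a b d)^[k] y)) := by
      apply strictMono_nat_of_lt_succ
      intro k
      show v ((fu a b d)^[k] x - (fu a b d)^[k] y) < v ((fu a b d)^[k + 1] x - (fu a b d)^[k + 1] y)
      have h2 := bad_step v hμ hd hvd ht (hx.iter k) (hy.iter k) (one_pow d)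
      rw [one_mul, bad_eq v hd ht (hy.iter k) hy] at h2
      have h3 := h2.resolve_left (hcon k)
      rw [Function.iterate_succ_apply', Function.iterate_succ_apply', ← h3]
      have h4 := (bad_q v hd ht hy).2.2
      have h5 : 0 < v ((fu a b d)^[k] x - (fu a b d)^[k] y) :=
        zero_lt_iff.2 ((Valuation.ne_zero_iff v).2 (sub_ne_zero.2 (hn k)))
      calc v ((fu a b d)^[k] x - (fu a b d)^[k] y) = 1 * v ((fu a b d)^[k] x - (fu a b d)^[k] y) :=
            (one_mul _).symm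
        _ < _ := mul_lt_mul_of_pos_right h4 h5
    have h2 : v ((fu a b d)^[m] x - (fu a b d)^[m] y) < v ((fu a b d)^[n] x - (fu a b d)^[n] y) :=
      h1 hmn
    rw [e1, e2] at h2
    exact lt_irrefl _ h2
  induction k generalizing x y with
  | zero => exact ⟨0, by rw [pow_zero, mul_one]; exact hk⟩
  | succ k ih =>
    have h1 := bad_eq v hd ht hy hy.map
    have h2 := ih hx.map hy.map hn.map (by
      rw [← Function.iterate_succ_apply, ← Function.iterate_succ_apply, Nat.succ_eq_add_one, hk, h1])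
    obtain ⟨m, hm⟩ := h2
    rw [← h1] at hm
    have h3 := bad_step v hμ hd hvd ht hx hy (one_pow d)
    rw [one_mul] at h3
    rcases h3 with h3 | h3
    · exact ⟨0, by rw [pow_zero, mul_one]; exact h3⟩
    · refine ⟨m + 1, ?_⟩
      refine Eq.trans ?_ hm
      rw [← h3, pow_succ]
      ac_rfl

/-- the factors at a bad place -/
lemma bad_factor (hμ : IsPrimitiveRoot μ d) (hd : 2 ≤ d) (hvd : v (d : L) = 1)
    (ht : 1 < v a * v b ^ (d - 1)) {x y : L}
    (hx : PP (fu a b d) x) (hy : PP (fu a b d) y) (hn : NM (fu a b d) x y) {ζ : L}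
    (hζ : ζ ^ d = 1) :
    ∃ m : ℕ, v (x - ζ * y) * (v a * v y ^ (d - 1)) ^ m = v y := by
  rcases bad_step v hμ hd hvd ht hx hy hζ with h | h
  · exact ⟨0, by rw [pow_zero, mul_one]; exact h⟩
  · obtain ⟨m, hm⟩ := bad_diff v hμ hd hvd ht hx.map hy.map hn.map
    rw [← bad_eq v hd ht hy hy.map] at hm
    refine ⟨m + 1, ?_⟩
    refine Eq.trans ?_ hm
    rw [← h, pow_succ]
    ac_rfl

/-- cancellation of powers -/
lemma le_of_pow_le {s t : Γ} {α : Γ} (hα : α ≠ 0) {k : ℕ} (hk : k ≠ 0)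
    (h : α * s ^ k ≤ α * t ^ k) : s ≤ t := by
  by_contra hc
  push Not at hc
  have h1 : t ^ k < s ^ k := pow_lt_pow_left₀ hc zero_le hk
  have h2 : α * t ^ k < α * s ^ k := mul_lt_mul_of_pos_left h1 (zero_lt_iff.2 hα)
  exact absurd h (not_le.2 h2)

/-- tails at potentially good places -/
lemma good_tail (hμ : IsPrimitiveRoot μ d) (hd : 2 ≤ d) (ht : v a * v b ^ (d - 1) ≤ 1)
    {x y w : L} (hx : PP (fu a b d) x) (hy : Per (fu a b d) y) (hw : Per (fu a b d) w) {ζ : L}
    (hζ : ζ ^ d = 1) (hζ1 : ζ ≠ 1) {k : ℕ} (hk : 1 ≤ k) (h1 : (fu a b d)^[k] x = ζ * w)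
    (h2 : (fu a b d)^[k] y ≠ w) {ζ' : L} (hζ' : ζ' ^ d = 1) :
    v (x - ζ' * y) = max (v w) (v ((fu a b d)^[k] y)) := by
  have hd0 : 0 < d := by omega
  obtain ⟨g1, g2⟩ := good_per v hμ hd ht hw (hy.iter k) (Ne.symm h2)
  set M := max (v w) (v ((fu a b d)^[k] y)) with hM
  have hζ0 : ζ ≠ 0 := by
    rintro rfl
    rw [zero_pow hd0.ne'] at hζ
    exact zero_ne_one hζ
  have hva : v a ≠ 0 := left_ne_zero_of_mul_eq_one g1
  have g3 : v (ζ * w - (fu a b d)^[k] y) = M := by
    have e : ζ * w - (fu a b d)^[k] y = ζ * (w - ζ⁻¹ * (fu a b d)^[k] y) := by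
      rw [mul_sub, ← mul_assoc, mul_inv_cancel₀ hζ0, one_mul]
    rw [e, map_mul, v_zeta v hd0.ne' hζ, one_mul]
    refine g2 _ (by rw [inv_pow, hζ, inv_one]) ?_
    intro h
    exact hζ1 (inv_eq_one.1 h)
  have hle : ∀ u : L, PP (fu a b d) u → v u ≤ M := by
    intro u hu
    apply le_of_pow_le hva (k := d - 1) (by omega)
    rw [g1]
    exact good_bound v hd ht hu
  apply le_antisymm
  · refine (v_sub_le v hd0.ne' hζ' x y).trans (max_le (hle x hx) (hle y hy.pp))
  · have s1 := good_step v (a := a) (b := b) hμ hd0 hζ' (good_bound v hd ht hx)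
      (good_bound v hd ht hy.pp)
    refine le_trans ?_ s1
    have s2 := good_iter v hμ hd ht hx.map hy.pp.map (k - 1)
    rw [← Function.iterate_succ_apply, ← Function.iterate_succ_apply, Nat.succ_eq_add_one,
      Nat.sub_add_cancel hk, h1, g3] at s2
    exact s2

/-- tails over a single fixed point, potentially good places -/
lemma good_tail_one (hμ : IsPrimitiveRoot μ d) (hd : 2 ≤ d) (hvd : v (d : L) = 1)
    (ht : v a * v b ^ (d - 1) ≤ 1)
    {x z : L} (hx : PP (fu a b d) x) (hz : fu a b d z = z) {ζ : L}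
    (hζ : ζ ^ d = 1) (hζ1 : ζ ≠ 1) {k : ℕ} (hk : 1 ≤ k) (h1 : (fu a b d)^[k] x = ζ * z)
    {ζ' : L} (hζ' : ζ' ^ d = 1) :
    v (x - ζ' * z) = max (v x) (v z) := by
  have hd0 : 0 < d := by omega
  have hzp : Per (fu a b d) z := ⟨1, one_pos, hz⟩
  have g3 : v (ζ * z - z) = v z := by
    have e : ζ * z - z = (ζ - 1) * z := by ring
    rw [e, map_mul, v_zeta_one v hd0 hvd hζ hζ1, one_mul]
  have hzk : ∀ j : ℕ, (fu a b d)^[j] z = z := fun j => Function.iterate_fixed hz j
  have s1 := good_step v (a := a) (b := b) hμ hd0 hζ' (good_bound v hd ht hx)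
      (good_bound v hd ht hzp.pp)
  have s2 := good_iter v hμ hd ht hx.map hzp.pp.map (k - 1)
  rw [← Function.iterate_succ_apply, ← Function.iterate_succ_apply, Nat.succ_eq_add_one,
      Nat.sub_add_cancel hk, h1, hzk, g3] at s2
  have s3 : v z ≤ v (x - ζ' * z) := s2.trans s1
  rcases le_or_gt (v x) (v z) with h | h
  · apply le_antisymm (v_sub_le v hd0.ne' hζ' x z)
    rw [max_eq_right h]
    exact s3
  · rw [max_eq_left h.le]
    apply Valuation.map_sub_eq_of_lt_left
    rw [map_mul, v_zeta v hd0.ne' hζ', one_mul]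
    exact h

/-- tails over a single fixed point, bad places -/
lemma bad_tail_one (hμ : IsPrimitiveRoot μ d) (hd : 2 ≤ d) (hvd : v (d : L) = 1)
    (ht : 1 < v a * v b ^ (d - 1))
    {x z : L} (hx : PP (fu a b d) x) (hz : fu a b d z = z) {ζ : L}
    (hζ : ζ ^ d = 1) (hζ1 : ζ ≠ 1) {k : ℕ} (hk : 1 ≤ k) (h1 : (fu a b d)^[k] x = ζ * z)
    {ζ' : L} (hζ' : ζ' ^ d = 1) :
    ∃ m : ℕ, v (x - ζ' * z) * (v a * v z ^ (d - 1)) ^ m = v z := by
  have hd0 : 0 < d := by omega
  have hzp : Per (fu a b d) z := ⟨1, one_pos, hz⟩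
  have key : ∀ (k : ℕ) (x : L), PP (fu a b d) x → (fu a b d)^[k] x = ζ * z →
      ∃ m : ℕ, v (x - z) * (v a * v z ^ (d - 1)) ^ m = v z := by
    intro k
    induction k with
    | zero =>
      intro x _ h
      rw [Function.iterate_zero, id] at h
      refine ⟨0, ?_⟩
      have e : x - z = (ζ - 1) * z := by rw [h]; ring
      rw [pow_zero, mul_one, e, map_mul, v_zeta_one v hd0 hvd hζ hζ1, one_mul]
    | succ k ih =>
      intro x hx h
      rw [Function.iterate_succ_apply] at h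
      obtain ⟨m, hm⟩ := ih _ hx.map h
      have h3 := bad_step v hμ hd hvd ht hx hzp.pp (one_pow d)
      rw [one_mul, hz] at h3
      rcases h3 with h3 | h3
      · exact ⟨0, by rw [pow_zero, mul_one]; exact h3⟩
      · refine ⟨m + 1, ?_⟩
        refine Eq.trans ?_ hm
        rw [← h3, pow_succ]
        ac_rfl
  obtain ⟨m, hm⟩ := key (k - 1) (fu a b d x) hx.map (by
    rw [← Function.iterate_succ_apply, Nat.succ_eq_add_one, Nat.sub_add_cancel hk, h1])
  have h3 := bad_step v hμ hd hvd ht hx hzp.pp hζ'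
  rw [hz] at h3
  rcases h3 with h3 | h3
  · exact ⟨0, by rw [pow_zero, mul_one]; exact h3⟩
  · refine ⟨m + 1, ?_⟩
    refine Eq.trans ?_ hm
    rw [← h3, pow_succ]
    ac_rfl

end val

end Pool.Agent.Zk42.UC
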