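import Pool.Agent.Zk42.UC.Loc2
import Pool.Agent.Zk42.UC.Fin

/-! The number of the preperiodic points over a number field containing the roots of unity. -/

set_option autoImplicit false

namespace Pool.Agent.Zk42.UC

open IsDedekindDomain NumberField Polynomial Finset
open scoped WithZero

lemma bad_ratio {Γ : Type*} [LinearOrderedCommGroupWithZero Γ] {q h s p₁ p₂ : Γ} {m₁ m₂ n : ℕ}
    (h1 : p₁ * q ^ m₁ = s) (h2 : p₂ * q ^ m₂ = s) (hq : q = h ^ n) (hq0 : q ≠ 0) :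
    ∃ g : Γ, p₁ = p₂ * g ^ n := by
  refine ⟨h ^ m₂ / h ^ m₁, ?_⟩
  have e : (h ^ m₂ / h ^ m₁) ^ n = q ^ m₂ / q ^ m₁ := by
    rw [div_pow, hq, ← pow_mul, ← pow_mul, ← pow_mul, ← pow_mul, Nat.mul_comm m₂, Nat.mul_comm m₁]
  rw [e, ← mul_div_assoc, h2, ← h1, mul_div_cancel_right₀ _ (pow_ne_zero _ hq0)]

section tail

variable {L : Type*} [Field L] {a b : L} {d : ℕ}

/-- A preperiodic point which is not periodic runs into `ζ w`, `w` periodic, `ζ ≠ 1` a root of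
unity. -/
theorem exists_tail (ha : a ≠ 0) (hd : d ≠ 0) {u : L} (hu : PP (fu a b d) u)
    (hnp : ¬ Per (fu a b d) u) :
    ∃ (k : ℕ) (w ζ : L), Per (fu a b d) w ∧ w ≠ 0 ∧ ζ ^ d = 1 ∧ ζ ≠ 1 ∧
      (fu a b d)^[k] u = ζ * w := by
  classical
  have hex := hu.exists_per
  set j := Nat.find hex with hj
  have hjs : Per (fu a b d) ((fu a b d)^[j] u) := Nat.find_spec hex
  have hj0 : j ≠ 0 := by
    intro h0
    rw [h0] at hjs
    exact hnp hjs
  obtain ⟨k, hk⟩ : ∃ k, j = k + 1 := ⟨j - 1, by omega⟩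
  have hknot : ¬ Per (fu a b d) ((fu a b d)^[k] u) := Nat.find_min hex (by omega)
  rw [hk] at hjs
  obtain ⟨N, hN, hper⟩ := id hjs
  set z := (fu a b d)^[k + 1] u with hz
  set w := (fu a b d)^[N - 1] z with hw
  have hwP : Per (fu a b d) w := hjs.iter _
  have hφw : fu a b d w = z := by
    rw [hw, ← Function.iterate_succ_apply' (fu a b d), Nat.succ_eq_add_one, Nat.sub_add_cancel hN]
    exact hper
  have hφs : fu a b d ((fu a b d)^[k] u) = z := by rw [hz, Function.iterate_succ_apply']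
  have h2 : ((fu a b d)^[k] u) ^ d = w ^ d := by
    have h1 := hφs.trans hφw.symm
    unfold fu at h1 ⊢
    have h3 := add_right_cancel h1
    exact mul_left_cancel₀ ha h3
  have hw0 : w ≠ 0 := by
    intro h0
    rw [h0, zero_pow hd] at h2
    have h3 : (fu a b d)^[k] u = w := by rw [pow_eq_zero_iff hd |>.1 h2, h0]
    rw [h3] at hknot
    exact hknot hwP
  refine ⟨k, w, (fu a b d)^[k] u / w, hwP, hw0, ?_, ?_, ?_⟩
  · rw [div_pow, h2, div_self (pow_ne_zero _ hw0)]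
  · intro h
    rw [div_eq_one_iff_eq hw0] at h
    rw [h] at hknot
    exact hknot hwP
  · rw [div_mul_cancel₀ _ hw0]

lemma pow_ne_of_fu {x y : L} (h : fu a b d x ≠ fu a b d y) : x ^ d ≠ y ^ d := by
  intro h1
  apply h
  unfold fu
  rw [h1]

end tail

section main

variable {L : Type} [Field L] [NumberField L] {d n : ℕ} {μ : L} {a b : L}

/-- the condition on the places outside `S` -/
def Cond (S : Set (HeightOneSpectrum (𝓞 L))) (a b : L) (d n : ℕ) : Prop :=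
  ∀ v : HeightOneSpectrum (𝓞 L), v ∉ S → 1 < v.valuation L a * v.valuation L b ^ (d - 1) →
    ∀ g : ℤᵐ⁰, v.valuation L a * v.valuation L b ^ (d - 1) = g ^ d → ∃ h : ℤᵐ⁰, g = h ^ n

/-- the property of the finite set `T` -/
def Good (S : Set (HeightOneSpectrum (𝓞 L))) (n : ℕ) (T : Finset L) : Prop :=
  ∀ a : L, a ≠ 0 → (∀ v : HeightOneSpectrum (𝓞 L), v ∉ S → ∃ g : ℤᵐ⁰, v.valuation L a = g ^ n) →
    ∃ t ∈ T, ∃ b : L, b ≠ 0 ∧ a = t * b ^ n

lemma ratio_mem {S : Set (HeightOneSpectrum (𝓞 L))} {T : Finset L} (hT : Good S n T) {x y : L}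
    (hxy : x ^ d ≠ y ^ d) (hy : y ≠ 0)
    (h : ∀ v : HeightOneSpectrum (𝓞 L), v ∉ S → ∀ ζ₁ ζ₂ : L, ζ₁ ^ d = 1 → ζ₂ ^ d = 1 → ζ₁ ≠ 1 →
      ζ₂ ≠ 1 → ∃ g : ℤᵐ⁰, v.valuation L (x - ζ₁ * y) = v.valuation L (x - ζ₂ * y) * g ^ n) :
    x / y ∈ Rset L d n T := by
  refine ⟨?_, ?_⟩
  · rw [div_pow]
    intro h1
    exact hxy ((div_eq_one_iff_eq (pow_ne_zero _ hy)).1 h1)
  · intro ζ₁ ζ₂ h₁ h₂ n₁ n₂
    have hne : ∀ ζ : L, ζ ^ d = 1 → x - ζ * y ≠ 0 := by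
      intro ζ hζ h0
      apply hxy
      rw [sub_eq_zero.1 h0, mul_pow, hζ, one_mul]
    have hv2 : ∀ v : HeightOneSpectrum (𝓞 L), v.valuation L (x - ζ₂ * y) ≠ 0 := fun v =>
      (Valuation.ne_zero_iff _).2 (hne _ h₂)
    obtain ⟨t, ht, z, hz, e⟩ := hT ((x - ζ₁ * y) / (x - ζ₂ * y)) (div_ne_zero (hne _ h₁) (hne _ h₂))
      (fun v hv => by
        obtain ⟨g, hg⟩ := h v hv ζ₁ ζ₂ h₁ h₂ n₁ n₂
        exact ⟨g, by rw [map_div₀, hg, mul_div_cancel_left₀ _ (hv2 v)]⟩)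
    refine ⟨t, ht, z, hz, ?_⟩
    have h2 := hne _ h₂
    rw [div_eq_iff h2] at e
    have e3 : x / y - ζ₁ = (x - ζ₁ * y) / y := by field_simp
    have e4 : x / y - ζ₂ = (x - ζ₂ * y) / y := by field_simp
    rw [e3, e4, e]
    ring

variable [DecidableEq L]

/-- two different periodic points -/
lemma per_ratio {S : Set (HeightOneSpectrum (𝓞 L))} (hdS : ∀ v ∉ S, v.valuation L (d : L) = 1)
    {T : Finset L} (hT : Good S n T) (hμ : IsPrimitiveRoot μ d) (hd : 2 ≤ d)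
    (hC : Cond S a b d n) {x y : L} (hx : Per (fu a b d) x)
    (hy : Per (fu a b d) y) (hne : x ≠ y) (hy0 : y ≠ 0) : x / y ∈ Rset L d n T := by
  have hn := per_NM hx hy hne
  refine ratio_mem hT (pow_ne_of_fu (hn 1)) hy0 ?_
  intro v hv ζ₁ ζ₂ h₁ h₂ n₁ n₂
  rcases le_or_gt (v.valuation L a * v.valuation L b ^ (d - 1)) 1 with ht | ht
  · obtain ⟨-, h⟩ := good_per (v.valuation L) hμ hd ht hx hy hne
    refine ⟨1, ?_⟩
    rw [h _ h₁ n₁, h _ h₂ n₂, one_pow, mul_one]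
  · obtain ⟨m₁, e₁⟩ := bad_factor (v.valuation L) hμ hd (hdS v hv) ht hx.pp hy.pp hn h₁
    obtain ⟨m₂, e₂⟩ := bad_factor (v.valuation L) hμ hd (hdS v hv) ht hx.pp hy.pp hn h₂
    obtain ⟨q1, q2, q3⟩ := bad_q (v.valuation L) hd ht hy.pp
    obtain ⟨h, hh⟩ := hC v hv ht _ q2.symm
    exact bad_ratio e₁ e₂ hh (ne_of_gt (lt_trans zero_lt_one q3))

/-- a point running into `ζ w` and a periodic point -/
lemma tail_ratio {S : Set (HeightOneSpectrum (𝓞 L))} (hdS : ∀ v ∉ S, v.valuation L (d : L) = 1)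
    {T : Finset L} (hT : Good S n T) (hμ : IsPrimitiveRoot μ d) (hd : 2 ≤ d)
    (hC : Cond S a b d n) {x y w ζ : L} (hx : PP (fu a b d) x) (hy : Per (fu a b d) y)
    (hw : Per (fu a b d) w) (hζ : ζ ^ d = 1) (hζ1 : ζ ≠ 1) {k : ℕ} (hk : 1 ≤ k)
    (h1 : (fu a b d)^[k] x = ζ * w) (h2 : (fu a b d)^[k] y ≠ w) (hs : ζ * w ≠ (fu a b d)^[k] y)
    (hy0 : y ≠ 0) : x / y ∈ Rset L d n T := by
  have hn : NM (fu a b d) x y := by
    intro j hj
    rcases Nat.lt_or_ge k j with hkj | hkj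
    · obtain ⟨i, rfl⟩ : ∃ i, j = i + 1 + k := ⟨j - k - 1, by omega⟩
      have e1 : (fu a b d)^[i + 1 + k] x = (fu a b d)^[i + 1] w := by
        rw [Function.iterate_add_apply, h1, Function.iterate_succ_apply,
          Function.iterate_succ_apply, fu_zeta hζ]
      have e2 : (fu a b d)^[i + 1 + k] y = (fu a b d)^[i + 1] ((fu a b d)^[k] y) := by
        rw [Function.iterate_add_apply]
      rw [e1, e2] at hj
      exact h2 (per_inj (hy.iter k) hw hj.symm)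
    · apply hs
      rw [← h1]
      have e1 : (fu a b d)^[k - j] ((fu a b d)^[j] x) = (fu a b d)^[k - j] ((fu a b d)^[j] y) := by
        rw [hj]
      rw [← Function.iterate_add_apply, ← Function.iterate_add_apply, Nat.sub_add_cancel hkj] at e1
      exact e1
  refine ratio_mem hT (pow_ne_of_fu (hn 1)) hy0 ?_
  intro v hv ζ₁ ζ₂ h₁ h₂ n₁ n₂
  rcases le_or_gt (v.valuation L a * v.valuation L b ^ (d - 1)) 1 with ht | ht
  · refine ⟨1, ?_⟩
    rw [good_tail (v.valuation L) hμ hd ht hx hy hw hζ hζ1 hk h1 h2 h₁,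
      good_tail (v.valuation L) hμ hd ht hx hy hw hζ hζ1 hk h1 h2 h₂, one_pow, mul_one]
  · obtain ⟨m₁, e₁⟩ := bad_factor (v.valuation L) hμ hd (hdS v hv) ht hx hy.pp hn h₁
    obtain ⟨m₂, e₂⟩ := bad_factor (v.valuation L) hμ hd (hdS v hv) ht hx hy.pp hn h₂
    obtain ⟨q1, q2, q3⟩ := bad_q (v.valuation L) hd ht hy.pp
    obtain ⟨h, hh⟩ := hC v hv ht _ q2.symm
    exact bad_ratio e₁ e₂ hh (ne_of_gt (lt_trans zero_lt_one q3))

/-- a point running into `ζ z` for a fixed point `z` -/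
lemma tail_one_ratio {S : Set (HeightOneSpectrum (𝓞 L))}
    (hdS : ∀ v ∉ S, v.valuation L (d : L) = 1)
    {T : Finset L} (hT : Good S n T) (hμ : IsPrimitiveRoot μ d) (hd : 2 ≤ d)
    (hC : Cond S a b d n) {x z ζ : L} (hx : PP (fu a b d) x) (hz : fu a b d z = z)
    (hζ : ζ ^ d = 1) (hζ1 : ζ ≠ 1) {k : ℕ} (hk : 1 ≤ k)
    (h1 : (fu a b d)^[k] x = ζ * z) (hz0 : z ≠ 0) : x / z ∈ Rset L d n T := by
  have hpow : x ^ d ≠ z ^ d := by
    apply pow_ne_of_fu (a := a) (b := b)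
    intro h
    rw [hz] at h
    have h2 : (fu a b d)^[k] x = z := by
      obtain ⟨j, rfl⟩ : ∃ j, k = j + 1 := ⟨k - 1, by omega⟩
      rw [Function.iterate_succ_apply, h]
      exact Function.iterate_fixed hz j
    rw [h1] at h2
    apply hζ1
    apply mul_right_cancel₀ hz0
    rw [h2, one_mul]
  refine ratio_mem hT hpow hz0 ?_
  intro v hv ζ₁ ζ₂ h₁ h₂ n₁ n₂
  rcases le_or_gt (v.valuation L a * v.valuation L b ^ (d - 1)) 1 with ht | ht
  · refine ⟨1, ?_⟩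
    rw [good_tail_one (v.valuation L) hμ hd (hdS v hv) ht hx hz hζ hζ1 hk h1 h₁,
      good_tail_one (v.valuation L) hμ hd (hdS v hv) ht hx hz hζ hζ1 hk h1 h₂, one_pow, mul_one]
  · obtain ⟨m₁, e₁⟩ := bad_tail_one (v.valuation L) hμ hd (hdS v hv) ht hx hz hζ hζ1 hk h1 h₁
    obtain ⟨m₂, e₂⟩ := bad_tail_one (v.valuation L) hμ hd (hdS v hv) ht hx hz hζ hζ1 hk h1 h₂
    obtain ⟨q1, q2, q3⟩ := bad_q (v.valuation L) hd ht (Per.pp ⟨1, one_pos, hz⟩)
    obtain ⟨h, hh⟩ := hC v hv ht _ q2.symm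
    exact bad_ratio e₁ e₂ hh (ne_of_gt (lt_trans zero_lt_one q3))

end main

end Pool.Agent.Zk42.UC
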